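import Pool.Agent.TH620.J27

/-!
# The choice of the parameters
-/

set_option autoImplicit false

open scoped BigOperators ENNReal
open MeasureTheory Filter

namespace Pool.Agent.TH796.PP

open Pool.Agent.H695R3.PP

theorem exp_small (κ A K : ℝ) (hκ : 0 < κ) (hA : 1 ≤ A) (hK : 0 < K) :
    ∀ᶠ k : ℕ in atTop, A ^ k * Real.exp (-(κ * 4 ^ k)) ≤ K := by
  have h := (Pool.Agent.TH620.J27.taskNum κ A hκ hA).1.tendsto_atTop_zero
  exact (h.eventually (gt_mem_nhds hK)).mono fun k hk => hk.le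

theorem exp_bdd (κ A : ℝ) (hκ : 0 < κ) (hA : 1 ≤ A) :
    ∃ M : ℝ, 0 < M ∧ ∀ k : ℕ, A ^ k * Real.exp (-(κ * 4 ^ k)) ≤ M := by
  have h := (Pool.Agent.TH620.J27.taskNum κ A hκ hA).1
  refine ⟨∑' k : ℕ, A ^ k * Real.exp (-(κ * 4 ^ k)), ?_, fun k => ?_⟩
  · refine h.tsum_pos (fun i => by positivity) 0 (by positivity)
  · exact h.le_tsum k (fun j _ => by positivity)

/-- all the parameters -/
theorem params (c C₁ C₂ R ρ : ℝ) (hc0 : 0 < c) (hc1 : c ≤ 1 / 2) (hC₁ : 0 < C₁) (hC₂ : 0 < C₂)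
    (hR : 1 ≤ R) (hρ : 0 < ρ) (hρ1 : ρ ≤ 1) :
    ∃ (L : ℕ → ℕ) (a τ d ε : ℕ → ℝ), StrictMono L ∧ (∀ k, 1 ≤ L k) ∧
      (∀ k, 0 < a k ∧ 0 < τ k ∧ 0 < d k) ∧ (∀ k, 0 < ε k ∧ ε k ≤ 1) ∧
      Summable ε ∧ ∑' k, ε k < ρ ∧
      (∑' k, ENNReal.ofReal (C₁ * R ^ 2 / (ε k ^ 3 * a k ^ 2 * τ k) *
        (1 - c * ε k ^ 2) ^ L k) ≠ ∞) ∧
      (∑' k, ENNReal.ofReal (C₂ * ((L k : ℝ) + 1) ^ 4 * d k / ε k) ≠ ∞) ∧
      (∀ᶠ k in atTop, 4 * τ k ≤ d (k + 1)) ∧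
      (∀ᶠ k in atTop, a (k + 1) + 4 * τ k / d (k + 1) ≤ a k) ∧
      Summable (fun k => τ k / d (k + 1)) ∧ Summable τ ∧
      Tendsto (fun k => (2 * (L k : ℝ) + 1) * a k ^ 2) atTop (nhds 0) ∧
      Tendsto (fun k => (2 * (L k : ℝ) + 1) * ∑' j, τ (k + j) / d (k + j + 1))
        atTop (nhds 0) := by
  set κ : ℝ := c * ρ ^ 2 / 32 with hκ
  have hκ0 : 0 < κ := by positivity
  set D : ℝ := 2 ^ 20 with hD
  have hD0 : (0 : ℝ) < D := by positivity
  have hD1 : (1 : ℝ) ≤ D := by rw [hD]; norm_num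
  have hquot : ∀ k : ℕ, Real.exp (-(κ * 4 ^ k)) / (1 / D) ^ (k + 1) =
      D * (D ^ k * Real.exp (-(κ * 4 ^ k))) := by
    intro k
    rw [one_div, inv_pow, div_inv_eq_mul, pow_succ]
    ring
  have hpε : ∀ k : ℕ, (ρ / 2 ^ (k + 2)) ^ 2 * (16 ^ k : ℝ) = ρ ^ 2 / 16 * 4 ^ k := by
    intro k
    rw [div_pow, ← pow_mul, show (k + 2) * 2 = 2 * k + 4 by ring, pow_add, pow_mul]
    rw [show (16 : ℝ) ^ k = 4 ^ k * 4 ^ k by rw [← mul_pow]; norm_num]
    field_simp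
    norm_num
    ring
  have hsum1 : Summable fun k : ℕ => ρ / 2 ^ (k + 2) := by
    have h := (summable_geometric_two).mul_left (ρ / 4)
    refine h.congr fun k => ?_
    rw [pow_add, one_div, inv_pow]
    field_simp
    norm_num
  have htsum1 : ∑' k : ℕ, ρ / 2 ^ (k + 2) = ρ / 2 := by
    have h := (hasSum_geometric_two.mul_left (ρ / 4)).tsum_eq
    rw [show ρ / 2 = ρ / 4 * 2 by ring, ← h]
    refine tsum_congr fun k => ?_
    rw [pow_add, one_div, inv_pow]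
    field_simp
    norm_num
  refine ⟨fun k => 16 ^ k, fun k => (1 / 8) ^ k, fun k => Real.exp (-(κ * 4 ^ k)),
    fun k => (1 / D) ^ k, fun k => ρ / 2 ^ (k + 2), ?_, ?_, ?_, ?_, hsum1, ?_, ?_, ?_, ?_, ?_, ?_,
    ?_, ?_, ?_⟩
  · exact pow_right_strictMono₀ (by norm_num)
  · intro k; exact Nat.one_le_pow _ _ (by norm_num)
  · intro k
    exact ⟨by positivity, by positivity, by positivity⟩
  · intro k
    refine ⟨by positivity, ?_⟩
    rw [div_le_one (by positivity)]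
    exact hρ1.trans (one_le_pow₀ (by norm_num))
  · rw [htsum1]; linarith
  · -- the first sum
    have h1 : ∀ k : ℕ, C₁ * R ^ 2 / ((ρ / 2 ^ (k + 2)) ^ 3 * ((1 / 8 : ℝ) ^ k) ^ 2 *
        Real.exp (-(κ * 4 ^ k))) * (1 - c * (ρ / 2 ^ (k + 2)) ^ 2) ^ (16 ^ k) ≤
        (64 * C₁ * R ^ 2 / ρ ^ 3) * ((512 : ℝ) ^ k * Real.exp (-(κ * 4 ^ k))) := by
      intro k
      have h2 : (1 - c * (ρ / 2 ^ (k + 2)) ^ 2) ^ (16 ^ k) ≤ Real.exp (-(2 * (κ * 4 ^ k))) := by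
        have h3 : 1 - c * (ρ / 2 ^ (k + 2)) ^ 2 ≤ Real.exp (-(c * (ρ / 2 ^ (k + 2)) ^ 2)) := by
          have := Real.add_one_le_exp (-(c * (ρ / 2 ^ (k + 2)) ^ 2))
          linarith
        have h0 : 0 ≤ 1 - c * (ρ / 2 ^ (k + 2)) ^ 2 := by
          have h4 : ρ / 2 ^ (k + 2) ≤ 1 := by
            rw [div_le_one (by positivity)]
            exact hρ1.trans (one_le_pow₀ (by norm_num))
          have h5 : (ρ / 2 ^ (k + 2)) ^ 2 ≤ 1 := pow_le_one₀ (by positivity) h4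
          nlinarith [sq_nonneg (ρ / 2 ^ (k + 2))]
        refine (pow_le_pow_left₀ h0 h3 _).trans (le_of_eq ?_)
        rw [← Real.exp_nat_mul]
        congr 1
        push_cast
        have h6 := hpε k
        calc (16 : ℝ) ^ k * -(c * (ρ / 2 ^ (k + 2)) ^ 2) =
            -(c * ((ρ / 2 ^ (k + 2)) ^ 2 * 16 ^ k)) := by ring
          _ = -(2 * (κ * 4 ^ k)) := by rw [h6, hκ]; ring
      have h7 : C₁ * R ^ 2 / ((ρ / 2 ^ (k + 2)) ^ 3 * ((1 / 8 : ℝ) ^ k) ^ 2 *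
          Real.exp (-(κ * 4 ^ k))) = (64 * C₁ * R ^ 2 / ρ ^ 3) * (512 : ℝ) ^ k *
            Real.exp (κ * 4 ^ k) := by
        rw [Real.exp_neg, div_pow, ← pow_mul, show (k + 2) * 3 = 3 * k + 6 by ring, pow_add,
          one_div, inv_pow, inv_pow]
        rw [show (512 : ℝ) ^ k = (2 : ℝ) ^ (3 * k) * ((8 : ℝ) ^ k) ^ 2 by
          rw [pow_mul, ← pow_mul (8 : ℝ) k 2, mul_comm k 2, pow_mul, ← mul_pow]; norm_num]
        field_simp
        norm_num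
      rw [h7]
      calc (64 * C₁ * R ^ 2 / ρ ^ 3) * (512 : ℝ) ^ k * Real.exp (κ * 4 ^ k) *
            (1 - c * (ρ / 2 ^ (k + 2)) ^ 2) ^ (16 ^ k) ≤
          (64 * C₁ * R ^ 2 / ρ ^ 3) * (512 : ℝ) ^ k * Real.exp (κ * 4 ^ k) *
            Real.exp (-(2 * (κ * 4 ^ k))) := by gcongr
        _ = (64 * C₁ * R ^ 2 / ρ ^ 3) * ((512 : ℝ) ^ k * Real.exp (-(κ * 4 ^ k))) := by
          rw [mul_assoc _ (Real.exp _), ← Real.exp_add]
          rw [show κ * 4 ^ k + -(2 * (κ * 4 ^ k)) = -(κ * 4 ^ k) by ring]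
          ring
    have hs : Summable fun k : ℕ => (64 * C₁ * R ^ 2 / ρ ^ 3) * ((512 : ℝ) ^ k *
        Real.exp (-(κ * 4 ^ k))) :=
      (Pool.Agent.TH620.J27.taskNum κ 512 hκ0 (by norm_num)).1.mul_left _
    refine ne_top_of_le_ne_top hs.tsum_ofReal_ne_top (ENNReal.tsum_le_tsum fun k => ?_)
    exact ENNReal.ofReal_le_ofReal (h1 k)
  · -- the second sum
    have h1 : ∀ k : ℕ, C₂ * ((((16 ^ k : ℕ) : ℕ) : ℝ) + 1) ^ 4 * (1 / D) ^ k / (ρ / 2 ^ (k + 2)) ≤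
        (64 * C₂ / ρ) * (1 / 8 : ℝ) ^ k := by
      intro k
      have h2 : ((((16 ^ k : ℕ) : ℕ) : ℝ) + 1) ≤ 2 * 16 ^ k := by
        push_cast
        have : (1 : ℝ) ≤ 16 ^ k := one_le_pow₀ (by norm_num)
        linarith
      calc C₂ * ((((16 ^ k : ℕ) : ℕ) : ℝ) + 1) ^ 4 * (1 / D) ^ k / (ρ / 2 ^ (k + 2)) ≤
            C₂ * (2 * 16 ^ k) ^ 4 * (1 / D) ^ k / (ρ / 2 ^ (k + 2)) := by gcongr
        _ = (64 * C₂ / ρ) * (1 / 8 : ℝ) ^ k := by
            have e1 : ((2 : ℝ) * 16 ^ k) ^ 4 = 16 * ((2 : ℝ) ^ 16) ^ k := by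
              rw [mul_pow, ← pow_mul, mul_comm k 4, pow_mul]; norm_num
            have e2 : (1 / 8 : ℝ) ^ k = ((2 : ℝ) ^ 16) ^ k * (1 / D) ^ k * 2 ^ k := by
              rw [← mul_pow, ← mul_pow, hD]; norm_num
            rw [e1, e2, pow_add]
            field_simp
            norm_num
    have hs : Summable fun k : ℕ => (64 * C₂ / ρ) * (1 / 8 : ℝ) ^ k :=
      (summable_geometric_of_lt_one (by norm_num) (by norm_num)).mul_left _
    refine ne_top_of_le_ne_top hs.tsum_ofReal_ne_top (ENNReal.tsum_le_tsum fun k => ?_)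
    exact ENNReal.ofReal_le_ofReal (h1 k)
  · filter_upwards [exp_small κ D (1 / (4 * D)) hκ0 hD1 (by positivity)] with k hk
    have h1 := hquot k
    have hp : 0 < (1 / D) ^ (k + 1) := by positivity
    rw [div_eq_iff hp.ne'] at h1
    rw [h1]
    have h2 : 4 * (D * (D ^ k * Real.exp (-(κ * 4 ^ k)))) ≤ 1 := by
      rw [le_div_iff₀ (by positivity)] at hk
      linarith
    nlinarith
  · filter_upwards [exp_small κ (8 * D) (7 / (32 * D)) hκ0 (by linarith) (by positivity)]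
      with k hk
    have h1 := hquot k
    rw [mul_div_assoc, h1]
    have h2 : (1 / 8 : ℝ) ^ k * 8 ^ k = 1 := by
      rw [← mul_pow]; norm_num
    have h8 : (0 : ℝ) < (1 / 8 : ℝ) ^ k := by positivity
    have h3 : D ^ k * Real.exp (-(κ * 4 ^ k)) =
        (1 / 8 : ℝ) ^ k * ((8 * D) ^ k * Real.exp (-(κ * 4 ^ k))) := by
      rw [mul_pow]
      calc D ^ k * Real.exp (-(κ * 4 ^ k)) =
          ((1 / 8 : ℝ) ^ k * 8 ^ k) * (D ^ k * Real.exp (-(κ * 4 ^ k))) := by rw [h2, one_mul]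
        _ = _ := by ring
    rw [h3]
    set X : ℝ := (8 * D) ^ k * Real.exp (-(κ * 4 ^ k)) with hX
    have h4 : 4 * (D * X) ≤ 7 / 8 := by
      rw [le_div_iff₀ (by positivity)] at hk
      linarith
    rw [pow_succ]
    nlinarith
  · have h := ((Pool.Agent.TH620.J27.taskNum κ D hκ0 hD1).1).mul_left D
    exact h.congr fun k => (hquot k).symm
  · have h := (Pool.Agent.TH620.J27.taskNum κ 1 hκ0 le_rfl).1
    refine h.congr fun k => ?_
    rw [one_pow, one_mul]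
  · have h1 : Tendsto (fun k : ℕ => 3 * (1 / 4 : ℝ) ^ k) atTop (nhds (3 * 0)) :=
      (tendsto_pow_atTop_nhds_zero_of_lt_one (by norm_num) (by norm_num)).const_mul 3
    rw [mul_zero] at h1
    refine squeeze_zero (fun k => by positivity) (fun k => ?_) h1
    push_cast
    have h2 : (1 : ℝ) ≤ 16 ^ k := one_le_pow₀ (by norm_num)
    have h3 : ((1 / 8 : ℝ) ^ k) ^ 2 = (1 / 64 : ℝ) ^ k := by
      rw [← pow_mul, mul_comm, pow_mul]; norm_num
    have h4 : (16 : ℝ) ^ k * (1 / 64 : ℝ) ^ k = (1 / 4 : ℝ) ^ k := by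
      rw [← mul_pow]; norm_num
    rw [h3]
    have h5 : (0 : ℝ) < (1 / 64 : ℝ) ^ k := by positivity
    nlinarith
  · obtain ⟨M, hM0, hM⟩ := exp_bdd (κ / 2) D (by positivity) hD1
    obtain ⟨-, hN⟩ := Pool.Agent.TH620.J27.taskNum (κ / 2) 16 (by positivity) (by norm_num)
    have h1 : Tendsto (fun k : ℕ => 3 * D * M * ((16 : ℝ) ^ k *
        ∑' j : ℕ, Real.exp (-(κ / 2 * 4 ^ (k + j))))) atTop (nhds (3 * D * M * 0)) :=
      hN.const_mul _
    rw [mul_zero] at h1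
    have hs0 := (Pool.Agent.TH620.J27.taskNum (κ / 2) 1 (by positivity) le_rfl).1
    simp only [one_pow, one_mul] at hs0
    have hs : ∀ k : ℕ, Summable fun j : ℕ => Real.exp (-(κ / 2 * 4 ^ (k + j))) := by
      intro k
      have := (summable_nat_add_iff k).2 hs0
      refine this.congr fun j => ?_
      rw [add_comm j k]
    refine squeeze_zero (fun k => by positivity) (fun k => ?_) h1
    push_cast
    have h2 : (1 : ℝ) ≤ 16 ^ k := one_le_pow₀ (by norm_num)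
    have h3 : ∀ n : ℕ, Real.exp (-(κ * 4 ^ n)) / (1 / D) ^ (n + 1) ≤
        D * M * Real.exp (-(κ / 2 * 4 ^ n)) := by
      intro n
      rw [hquot]
      have h4 : Real.exp (-(κ * 4 ^ n)) = Real.exp (-(κ / 2 * 4 ^ n)) *
          Real.exp (-(κ / 2 * 4 ^ n)) := by
        rw [← Real.exp_add]; congr 1; ring
      rw [h4]
      have h5 := mul_le_mul_of_nonneg_right (hM n) (Real.exp_pos (-(κ / 2 * 4 ^ n))).le
      calc D * (D ^ n * (Real.exp (-(κ / 2 * 4 ^ n)) * Real.exp (-(κ / 2 * 4 ^ n)))) =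
          D * (D ^ n * Real.exp (-(κ / 2 * 4 ^ n)) * Real.exp (-(κ / 2 * 4 ^ n))) := by ring
        _ ≤ D * (M * Real.exp (-(κ / 2 * 4 ^ n))) := by gcongr
        _ = _ := by ring
    have h6 : ∑' j : ℕ, Real.exp (-(κ * 4 ^ (k + j))) / (1 / D) ^ (k + j + 1) ≤
        D * M * ∑' j : ℕ, Real.exp (-(κ / 2 * 4 ^ (k + j))) := by
      rw [← tsum_mul_left]
      refine Summable.tsum_le_tsum (fun j => h3 (k + j)) ?_ ((hs k).mul_left _)
      refine Summable.of_nonneg_of_le (fun j => by positivity) (fun j => h3 (k + j))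
        ((hs k).mul_left _)
    have h7 : 0 ≤ ∑' j : ℕ, Real.exp (-(κ / 2 * 4 ^ (k + j))) :=
      tsum_nonneg fun j => (Real.exp_pos _).le
    calc (2 * (16 : ℝ) ^ k + 1) * ∑' j : ℕ, Real.exp (-(κ * 4 ^ (k + j))) /
          (1 / D) ^ (k + j + 1) ≤ (3 * (16 : ℝ) ^ k) * (D * M *
            ∑' j : ℕ, Real.exp (-(κ / 2 * 4 ^ (k + j)))) := by
          gcongr
          linarith
      _ = _ := by ring

end Pool.Agent.TH796.PP
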