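import Pool.Agent.TH796.PP.G2
import Pool.Agent.TH796.PP.Par
import Pool.Agent.TH620.J17
import Pool.Agent.TH620.J24
import Pool.Agent.TH620.J25
import Pool.Agent.TH620.J26
import Pool.Agent.TH635.J20
import Pool.Agent.TH635.J21
import Pool.Agent.TH635.J22
import Pool.Agent.TH925.J18
import Pool.Agent.TH925.J23

/-!
# Pure point spectrum almost surely, for a dense set of limit-periodic operators
-/

set_option autoImplicit false
set_option linter.unusedSectionVars false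
set_option linter.dupNamespace false

open scoped BigOperators ENNReal
open MeasureTheory Filter

namespace Pool.Agent.TH796.PP

open Pool.Agent.H695R3.PP

/-- cut off at `±1` -/
noncomputable def cl (x : ℝ) : ℝ := max (-1) (min 1 x)

theorem abs_cl_le (x : ℝ) : |cl x| ≤ 1 := by
  unfold cl
  rw [abs_le]
  constructor
  · exact le_max_left _ _
  · exact max_le (by norm_num) (min_le_left _ _)

theorem cl_eq {x : ℝ} (hx : |x| ≤ 1) : cl x = x := by
  rw [abs_le] at hx
  unfold cl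
  rw [min_eq_right hx.2, max_eq_right hx.1]

theorem continuous_cl : Continuous cl := by
  unfold cl
  fun_prop

section

variable {Ω : Type} [AddCommGroup Ω] [TopologicalSpace Ω] [IsTopologicalAddGroup Ω]
  (H : ℕ → AddSubgroup Ω) (ε : ℕ → ℝ) (f0 : Ω → ℝ)

/-- the potential for the noise `η` -/
noncomputable def pot (η : ∀ k, (Ω ⧸ H k) → ℝ) (ω : Ω) : ℝ :=
  f0 ω + ∑' k, ε k * cl (η k (ω : Ω ⧸ H k))

theorem summable_pot (hε : ∀ k, 0 < ε k) (hs : Summable ε) (η : ∀ k, (Ω ⧸ H k) → ℝ) (ω : Ω) :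
    Summable fun k => ε k * cl (η k (ω : Ω ⧸ H k)) := by
  refine Summable.of_norm_bounded hs fun k => ?_
  rw [Real.norm_eq_abs, abs_mul, abs_of_pos (hε k)]
  exact mul_le_of_le_one_right (hε k).le (abs_cl_le _)

theorem tsum_pot_le (hε : ∀ k, 0 < ε k) (hs : Summable ε) (η : ∀ k, (Ω ⧸ H k) → ℝ) (ω : Ω) :
    |∑' k, ε k * cl (η k (ω : Ω ⧸ H k))| ≤ ∑' k, ε k := by
  rw [← Real.norm_eq_abs]
  refine tsum_of_norm_bounded hs.hasSum fun k => ?_
  rw [Real.norm_eq_abs, abs_mul, abs_of_pos (hε k)]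
  exact mul_le_of_le_one_right (hε k).le (abs_cl_le _)

theorem continuous_pot (hε : ∀ k, 0 < ε k) (hs : Summable ε) (hf : Continuous f0)
    (hH : ∀ k, IsOpen (H k : Set Ω)) (η : ∀ k, (Ω ⧸ H k) → ℝ) :
    Continuous (pot H ε f0 η) := by
  unfold pot
  refine hf.add (continuous_tsum (fun k => ?_) hs fun k ω => ?_)
  · have : DiscreteTopology (Ω ⧸ H k) := QuotientAddGroup.discreteTopology (hH k)
    have h1 : Continuous fun ω : Ω => η k (ω : Ω ⧸ H k) :=
      (continuous_of_discreteTopology (f := η k)).comp QuotientAddGroup.continuous_mk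
    exact continuous_const.mul (continuous_cl.comp h1)
  · rw [Real.norm_eq_abs, abs_mul, abs_of_pos (hε k)]
    exact mul_le_of_le_one_right (hε k).le (abs_cl_le _)

/-- the potential without the level `k` -/
noncomputable def rest (k : ℕ) (η : ∀ k, (Ω ⧸ H k) → ℝ) (ω : Ω) : ℝ :=
  f0 ω + ∑' j, if j = k then 0 else ε j * cl (η j (ω : Ω ⧸ H j))

theorem abs_rest_le (hε : ∀ k, 0 < ε k) (hs : Summable ε) (k : ℕ) (η : ∀ k, (Ω ⧸ H k) → ℝ)
    (ω : Ω) (M : ℝ) (hM : |f0 ω| ≤ M) : |rest H ε f0 k η ω| ≤ M + ∑' k, ε k := by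
  unfold rest
  refine (abs_add_le _ _).trans (add_le_add hM ?_)
  rw [← Real.norm_eq_abs]
  refine tsum_of_norm_bounded hs.hasSum fun j => ?_
  split_ifs
  · rw [norm_zero]; exact (hε j).le
  · rw [Real.norm_eq_abs, abs_mul, abs_of_pos (hε j)]
    exact mul_le_of_le_one_right (hε j).le (abs_cl_le _)

theorem pot_update (hε : ∀ k, 0 < ε k) (hs : Summable ε) (k : ℕ) (η : ∀ k, (Ω ⧸ H k) → ℝ)
    (s : (Ω ⧸ H k) → ℝ) (ω : Ω) : pot H ε f0 (Function.update η k s) ω =
      rest H ε f0 k η ω + ε k * cl (s (ω : Ω ⧸ H k)) := by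
  unfold pot rest
  rw [(summable_pot H ε hε hs (Function.update η k s) ω).tsum_eq_add_tsum_ite k]
  rw [Function.update_self]
  have h1 : ∀ j, (if j = k then 0 else ε j * cl (Function.update η k s j (ω : Ω ⧸ H j))) =
      if j = k then 0 else ε j * cl (η j (ω : Ω ⧸ H j)) := by
    intro j
    split_ifs with hj
    · rfl
    · rw [Function.update_of_ne hj]
  simp only [h1]
  ring

variable [∀ k, Fintype (Ω ⧸ H k)]

/-- the law of the noise -/
noncomputable def PP : Measure (∀ k, (Ω ⧸ H k) → ℝ) :=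
  Measure.infinitePi fun k => Measure.pi fun _ : Ω ⧸ H k => U

instance : IsProbabilityMeasure (PP H) := by unfold PP; infer_instance

theorem PP_resample (k : ℕ) (S : Set (∀ k, (Ω ⧸ H k) → ℝ)) (hS : MeasurableSet S) :
    PP H S = ∫⁻ η, (Measure.pi fun _ : Ω ⧸ H k => U) {s | Function.update η k s ∈ S} ∂(PP H) := by
  have h := Pool.Agent.H853R3.PP.Resample.taskResample ℕ (fun k => (Ω ⧸ H k) → ℝ)
    (fun k => Measure.pi fun _ : Ω ⧸ H k => U) k
  have hm : Measurable (fun p : (∀ k, (Ω ⧸ H k) → ℝ) × ((Ω ⧸ H k) → ℝ) =>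
      Function.update p.1 k p.2) :=
    Pool.Agent.H853R3.PP.Resample.measurable_upd (X := fun k => (Ω ⧸ H k) → ℝ) k
  unfold PP
  conv_lhs => rw [← h]
  rw [Measure.map_apply hm hS, Measure.prod_apply (hm hS)]
  rfl

theorem pi_supp (k : ℕ) : ∀ᵐ s ∂(Measure.pi fun _ : Ω ⧸ H k => U), ∀ q, |s q| ≤ 1 := by
  rw [ae_all_iff]
  intro q
  have h1 : U {s : ℝ | ¬ |s| ≤ 1} = 0 := by
    have : {s : ℝ | ¬ |s| ≤ 1} = (Set.Icc (-1) 1)ᶜ := by
      ext s
      simp only [Set.mem_ofPred_eq, Set.mem_compl_iff, Set.mem_Icc, abs_le]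
    rw [this]
    unfold U
    rw [Measure.smul_apply, Measure.restrict_apply measurableSet_Icc.compl]
    simp
  have h3 : ∀ᵐ s ∂U, |s| ≤ 1 := by
    rw [ae_iff]; exact h1
  exact (Measure.quasiMeasurePreserving_eval (μ := fun _ : Ω ⧸ H k => U) q).ae h3

variable [MeasurableSpace Ω] [BorelSpace Ω]

theorem measurable_level (hH : ∀ k, IsOpen (H k : Set Ω)) (k : ℕ) :
    Measurable fun p : (∀ k, (Ω ⧸ H k) → ℝ) × Ω => p.1 k (p.2 : Ω ⧸ H k) := by
  classical
  have h1 : (fun p : (∀ k, (Ω ⧸ H k) → ℝ) × Ω => p.1 k (p.2 : Ω ⧸ H k)) =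
      fun p => ∑ q : Ω ⧸ H k, if ((p.2 : Ω) : Ω ⧸ H k) = q then p.1 k q else 0 := by
    funext p
    rw [Finset.sum_ite_eq Finset.univ]
    simp
  rw [h1]
  refine Finset.measurable_sum _ fun q _ => ?_
  refine Measurable.ite ?_ ?_ measurable_const
  · have : DiscreteTopology (Ω ⧸ H k) := QuotientAddGroup.discreteTopology (hH k)
    have h2 : IsOpen {ω : Ω | (ω : Ω ⧸ H k) = q} :=
      (isOpen_discrete ({q} : Set (Ω ⧸ H k))).preimage QuotientAddGroup.continuous_mk
    exact measurable_snd h2.measurableSet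
  · exact (measurable_pi_apply q).comp ((measurable_pi_apply k).comp measurable_fst)

theorem measurable_pot (hε : ∀ k, 0 < ε k) (hs : Summable ε) (hf : Measurable f0)
    (hH : ∀ k, IsOpen (H k : Set Ω)) :
    Measurable fun p : (∀ k, (Ω ⧸ H k) → ℝ) × Ω => pot H ε f0 p.1 p.2 := by
  unfold pot
  refine (hf.comp measurable_snd).add ?_
  refine measurable_of_tendsto_metrizable (f := fun (N : ℕ) (p : (∀ k, (Ω ⧸ H k) → ℝ) × Ω) =>
    ∑ k ∈ Finset.range N, ε k * cl (p.1 k (p.2 : Ω ⧸ H k))) (fun N => ?_) ?_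
  · exact Finset.measurable_sum _ fun k _ =>
      measurable_const.mul (continuous_cl.measurable.comp (measurable_level H hH k))
  · rw [tendsto_pi_nhds]
    intro p
    exact (summable_pot H ε hε hs p.1 p.2).hasSum.tendsto_sum_nat

theorem measurable_V (hε : ∀ k, 0 < ε k) (hs : Summable ε) (hf : Measurable f0)
    (hH : ∀ k, IsOpen (H k : Set Ω)) (α : Ω) :
    Measurable fun p : (∀ k, (Ω ⧸ H k) → ℝ) × Ω => fun n : ℤ =>
      pot H ε f0 p.1 (p.2 + n • α) := by
  rw [measurable_pi_iff]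
  intro n
  refine (measurable_pot H ε f0 hε hs hf hH).comp (measurable_fst.prodMk ?_)
  exact (continuous_add_const (n • α)).measurable.comp measurable_snd

/-- the probability of an event of the window `[-L, L]` -/
theorem prob_window (hε : ∀ k, 0 < ε k) (hs : Summable ε) (hf : Measurable f0)
    (hH : ∀ k, IsOpen (H k : Set Ω)) (α : Ω) (M : ℝ) (hM : ∀ ω, |f0 ω| ≤ M) (k L : ℕ)
    (hinj : ∀ j : ℤ, j ≠ 0 → |j| ≤ 2 * L → j • α ∉ H k) (B : Set (ℤ → ℝ))
    (hB : MeasurableSet B)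
    (hBw : ∀ V V' : ℤ → ℝ, (∀ n, -(L : ℤ) ≤ n → n ≤ L → V n = V' n) → (V ∈ B ↔ V' ∈ B))
    (b : ℝ≥0∞)
    (hb : ∀ W : ℤ → ℝ, (∀ n, |W n| ≤ M + ∑' k, ε k) →
      PZ {x | (fun n => W n + ε k * x n) ∈ B} ≤ b) (ω : Ω) :
    PP H {η | (fun n : ℤ => pot H ε f0 η (ω + n • α)) ∈ B} ≤ b := by
  set S : Set (∀ k, (Ω ⧸ H k) → ℝ) := {η | (fun n : ℤ => pot H ε f0 η (ω + n • α)) ∈ B} with hS
  have hSm : MeasurableSet S := by
    have h1 := (measurable_V H ε f0 hε hs hf hH α).comp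
      (measurable_id.prodMk (measurable_const (a := ω)) :
        Measurable fun η : (∀ k, (Ω ⧸ H k) → ℝ) => (η, ω))
    exact h1 hB
  rw [PP_resample H k S hSm]
  calc ∫⁻ η, (Measure.pi fun _ : Ω ⧸ H k => U) {s | Function.update η k s ∈ S} ∂(PP H) ≤
      ∫⁻ _η, b ∂(PP H) := by
        refine lintegral_mono fun η => ?_
        set W : ℤ → ℝ := fun n => rest H ε f0 k η (ω + n • α) with hW
        set q : ℤ → Ω ⧸ H k := fun n => ((ω + n • α : Ω) : Ω ⧸ H k) with hq
        have hqi : Set.InjOn q (Set.Icc (-(L : ℤ)) L) := by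
          intro n hn m hm hnm
          by_contra hne
          have h2 : (ω + n • α) - (ω + m • α) ∈ H k := by
            have h3 : ((ω + m • α : Ω) : Ω ⧸ H k) = ((ω + n • α : Ω) : Ω ⧸ H k) := hnm.symm
            rw [QuotientAddGroup.eq] at h3
            have h4 : (ω + n • α) - (ω + m • α) = -(ω + m • α) + (ω + n • α) := by abel
            rw [h4]
            exact h3
          have h5 : (ω + n • α) - (ω + m • α) = (n - m) • α := by
            rw [sub_zsmul]; abel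
          rw [h5] at h2
          refine hinj (n - m) (sub_ne_zero.2 hne) ?_ h2
          obtain ⟨hn1, hn2⟩ := hn
          obtain ⟨hm1, hm2⟩ := hm
          rw [abs_le]
          omega
        have h1 : {s | Function.update η k s ∈ S} =
            {s : (Ω ⧸ H k) → ℝ | (fun n => W n + ε k * cl (s (q n))) ∈ B} := by
          ext s
          rw [hS]
          simp only [Set.mem_ofPred_eq]
          have : (fun n : ℤ => pot H ε f0 (Function.update η k s) (ω + n • α)) =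
              fun n => W n + ε k * cl (s (q n)) := by
            funext n
            exact pot_update H ε f0 hε hs k η s _
          rw [this]
        have h2 : (Measure.pi fun _ : Ω ⧸ H k => U)
            {s : (Ω ⧸ H k) → ℝ | (fun n => W n + ε k * cl (s (q n))) ∈ B} =
            (Measure.pi fun _ : Ω ⧸ H k => U)
            {s : (Ω ⧸ H k) → ℝ | (fun n => W n + ε k * s (q n)) ∈ B} := by
          refine measure_congr ?_
          filter_upwards [pi_supp H k] with s hs'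
          apply propext
          have : (fun n => W n + ε k * cl (s (q n))) = fun n => W n + ε k * s (q n) := by
            funext n
            rw [cl_eq (hs' _)]
          change (fun n => W n + ε k * cl (s (q n))) ∈ B ↔ (fun n => W n + ε k * s (q n)) ∈ B
          rw [this]
        rw [h1, h2, Pool.Agent.TH620.J26.taskTransfer (Ω ⧸ H k) q L W (ε k) B hqi hB hBw]
        exact hb W fun n => abs_rest_le H ε f0 hε hs k η _ M (hM _)
    _ = b := by rw [lintegral_const, measure_univ, mul_one]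

end

theorem bad1_window (L : ℕ) (a τ : ℝ) (V V' : ℤ → ℝ)
    (h : ∀ n, -(L : ℤ) ≤ n → n ≤ L → V n = V' n) : Bad1 L a τ V ↔ Bad1 L a τ V' := by
  constructor
  · rintro ⟨E, ψ, h1, h2⟩
    exact ⟨E, ψ, isEig_congr h h1, h2⟩
  · rintro ⟨E, ψ, h1, h2⟩
    exact ⟨E, ψ, isEig_congr (fun n h3 h4 => (h n h3 h4).symm) h1, h2⟩

theorem bad2_window (L : ℕ) (d : ℝ) (V V' : ℤ → ℝ)
    (h : ∀ n, -(L : ℤ) ≤ n → n ≤ L → V n = V' n) : Bad2 L d V ↔ Bad2 L d V' := by
  constructor
  · rintro ⟨E, ψ, E', ψ', h1, h2, h3⟩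
    exact ⟨E, ψ, E', ψ', isEig_congr h h1, isEig_congr h h2, h3⟩
  · rintro ⟨E, ψ, E', ψ', h1, h2, h3⟩
    exact ⟨E, ψ, E', ψ', isEig_congr (fun n h3 h4 => (h n h3 h4).symm) h1,
      isEig_congr (fun n h3 h4 => (h n h3 h4).symm) h2, h3⟩

theorem measurableSet_ev (B : ℕ → Set (ℤ → ℝ)) (hB : ∀ k, MeasurableSet (B k)) :
    MeasurableSet {V : ℤ → ℝ | ∀ᶠ k in atTop, V ∉ B k} := by
  have : {V : ℤ → ℝ | ∀ᶠ k in atTop, V ∉ B k} = ⋃ N : ℕ, ⋂ k : ℕ, {V | N ≤ k → V ∉ B k} := by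
    ext V
    simp only [Set.mem_ofPred_eq, eventually_atTop, Set.mem_iUnion, Set.mem_iInter]
  rw [this]
  refine MeasurableSet.iUnion fun N => MeasurableSet.iInter fun k => ?_
  by_cases h : N ≤ k
  · simp only [h, true_imp_iff]
    exact (hB k).compl
  · simp only [h, false_imp_iff]
    exact MeasurableSet.univ

theorem main (Ω : Type) [AddCommGroup Ω] [TopologicalSpace Ω] [IsTopologicalAddGroup Ω]
    [CompactSpace Ω] [T2Space Ω] [TotallyDisconnectedSpace Ω] [Infinite Ω]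
    [MeasurableSpace Ω] [BorelSpace Ω] (μ : Measure Ω) [IsFiniteMeasure μ] (α : Ω)
    (hα : Dense (Set.range (fun n : ℤ => n • α))) (f₀ : C(Ω, ℝ)) (r : ℝ) (hr : 0 < r) :
    ∃ f : C(Ω, ℝ), dist f f₀ < r ∧
      ∀ᵐ ω ∂μ, (EigSpan fun n : ℤ => f (ω + n • α)).topologicalClosure = ⊤ := by
  classical
  -- the tasks
  have tIso := Pool.Agent.TH620.J17.taskIso
  have tAvg := Pool.Agent.TH620.J17.taskAvg
  have tContr := taskContr tIso tAvg Pool.Agent.TH925.J18.taskDich
  have tFE := taskFE (taskJ tIso tAvg tContr)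
  obtain ⟨c, C₁, hc0, hc1, hC₁, tG1⟩ := taskG1 tFE
  obtain ⟨C₂, hC₂, tG2⟩ := taskG2 (Pool.Agent.TH635.J21.taskSplit Pool.Agent.TH635.J20.taskApprox)
    Pool.Agent.TH635.J20.taskCard
  have tCompl := Pool.Agent.TH635.J20.taskCompl
  have tC2 : Pool.Agent.TH635.J22.Compl2 := by
    intro V L
    obtain ⟨e, ψ, h1, h2, h3⟩ := Pool.Agent.TH635.J20.compl2 V L
    exact ⟨e, ψ, h1, fun i j hij => by rw [h2, if_neg hij], h3⟩
  have tStep := Pool.Agent.TH635.J22.taskStep tC2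
  have tChain := Pool.Agent.TH635.J22.taskChain tStep
  have tDelta := Pool.Agent.TH925.J23.taskDelta tChain tCompl
  have tTop := Pool.Agent.TH620.J24.taskTop
  obtain ⟨tM1, tM2⟩ := taskMeas
  -- parameters
  set ρ : ℝ := min r 1 with hρ
  have hρ0 : 0 < ρ := lt_min hr one_pos
  set M : ℝ := ‖f₀‖ + 1 with hM
  have hM1 : ∀ ω, |f₀ ω| ≤ M := fun ω => by
    have := f₀.norm_coe_le_norm ω
    rw [Real.norm_eq_abs] at this
    linarith
  set R : ℝ := M + 1 with hR
  have hR1 : 1 ≤ R := by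
    have := norm_nonneg f₀
    linarith
  obtain ⟨L, a, τ, d, ε, hL, hL1, hpos, hε, hs, htε, hb1, hb2, p1, p2, p3, p4, p5, p6⟩ :=
    params c C₁ C₂ R ρ hc0 hc1 hC₁ hC₂ hR1 hρ0 (min_le_right _ _)
  have hε0 : ∀ k, 0 < ε k := fun k => (hε k).1
  have htε1 : ∑' k, ε k < 1 := htε.trans_le (min_le_right _ _)
  -- the subgroups
  choose H hHo hHf hHi using fun k : ℕ => Pool.Agent.TH620.J25.taskGroup Ω α hα (2 * L k)
  have hft : ∀ k, Fintype (Ω ⧸ H k) := fun k => by
    have := hHf k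
    exact Fintype.ofFinite _
  have hf0 : Measurable (f₀ : Ω → ℝ) := f₀.continuous.measurable
  set V : (∀ k, (Ω ⧸ H k) → ℝ) × Ω → ℤ → ℝ := fun p n => pot H ε f₀ p.1 (p.2 + n • α) with hV
  have hVm : Measurable V := measurable_V H ε f₀ hε0 hs hf0 hHo α
  -- probabilities
  have hprob1 : ∀ (ω : Ω) (k : ℕ), PP H {η | V (η, ω) ∈ {v | Bad1 (L k) (a k) (τ k) v}} ≤
      ENNReal.ofReal (C₁ * R ^ 2 / (ε k ^ 3 * a k ^ 2 * τ k) * (1 - c * ε k ^ 2) ^ L k) := by
    intro ω k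
    refine prob_window H ε f₀ hε0 hs hf0 hHo α M hM1 k (L k) ?_ _ (tM1 _ _ _)
      (bad1_window (L k) (a k) (τ k)) _ ?_ ω
    · intro j hj hj2
      exact hHi k j hj (by exact_mod_cast hj2)
    · intro W hW
      exact tG1 (ε k) R (a k) (τ k) W (L k) (hε k).1 (hε k).2 hR1
        (fun n => (hW n).trans (by linarith)) (hpos k).1 (hpos k).2.1 (hL1 k)
  have hprob2 : ∀ (ω : Ω) (k : ℕ), PP H {η | V (η, ω) ∈ {v | Bad2 (L k) (d k) v}} ≤
      ENNReal.ofReal (C₂ * ((L k : ℝ) + 1) ^ 4 * d k / ε k) := by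
    intro ω k
    refine prob_window H ε f₀ hε0 hs hf0 hHo α M hM1 k (L k) ?_ _ (tM2 _ _)
      (bad2_window (L k) (d k)) _ ?_ ω
    · intro j hj hj2
      exact hHi k j hj (by exact_mod_cast hj2)
    · intro W hW
      exact tG2 (ε k) (d k) W (L k) (hε k).1 (hpos k).2.2
  -- the good set
  set G : Set (ℤ → ℝ) := {v | ∀ᶠ k in atTop, v ∉ {v | Bad1 (L k) (a k) (τ k) v}} ∩
    {v | ∀ᶠ k in atTop, v ∉ {v | Bad2 (L k) (d k) v}} with hG
  have hGm : MeasurableSet G :=
    (measurableSet_ev _ fun k => tM1 _ _ _).inter (measurableSet_ev _ fun k => tM2 _ _)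
  have hgood : ∀ ω : Ω, ∀ᵐ η ∂(PP H), V (η, ω) ∈ G := by
    intro ω
    have e1 := ae_eventually_notMem (μ := PP H)
      (s := fun k => {η | V (η, ω) ∈ {v | Bad1 (L k) (a k) (τ k) v}})
      (ne_top_of_le_ne_top hb1 (ENNReal.tsum_le_tsum fun k => hprob1 ω k))
    have e2 := ae_eventually_notMem (μ := PP H)
      (s := fun k => {η | V (η, ω) ∈ {v | Bad2 (L k) (d k) v}})
      (ne_top_of_le_ne_top hb2 (ENNReal.tsum_le_tsum fun k => hprob2 ω k))
    filter_upwards [e1, e2] with η h1 h2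
    exact ⟨h1, h2⟩
  have hae : ∀ᵐ η ∂(PP H), ∀ m : ℤ, ∀ᵐ ω ∂μ, V (η, ω + m • α) ∈ G := by
    rw [ae_all_iff]
    intro m
    have hmm : Measurable fun p : (∀ k, (Ω ⧸ H k) → ℝ) × Ω => V (p.1, p.2 + m • α) :=
      hVm.comp (measurable_fst.prodMk ((continuous_add_const (m • α)).measurable.comp
        measurable_snd))
    have hnull : ((PP H).prod μ) {p | ¬ V (p.1, p.2 + m • α) ∈ G} = 0 := by
      have hms : MeasurableSet {p : (∀ k, (Ω ⧸ H k) → ℝ) × Ω | ¬ V (p.1, p.2 + m • α) ∈ G} :=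
        (hmm hGm).compl
      rw [Measure.prod_apply_symm hms]
      rw [lintegral_eq_zero_iff (measurable_measure_prodMk_right hms)]
      refine Eventually.of_forall fun ω => ?_
      exact ae_iff.1 (hgood (ω + m • α))
    have h3 : ∀ᵐ p ∂((PP H).prod μ), V (p.1, p.2 + m • α) ∈ G := ae_iff.2 hnull
    exact Measure.ae_ae_of_ae_prod h3
  obtain ⟨η, hη⟩ := hae.exists
  set f : C(Ω, ℝ) := ⟨pot H ε f₀ η, continuous_pot H ε f₀ hε0 hs f₀.continuous hHo η⟩ with hf
  refine ⟨f, ?_, ?_⟩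
  · rw [ContinuousMap.dist_lt_iff hr]
    intro ω
    rw [Real.dist_eq]
    have : f ω - f₀ ω = ∑' k, ε k * cl (η k (ω : Ω ⧸ H k)) := by
      rw [hf]
      simp only [ContinuousMap.coe_mk]
      unfold pot
      ring
    rw [this]
    exact (tsum_pot_le H ε hε0 hs η ω).trans_lt (htε.trans_le (min_le_left _ _))
  · filter_upwards [ae_all_iff.2 hη] with ω hω
    refine tTop (fun n : ℤ => f (ω + n • α)) fun m => ?_
    have h1 := hω m
    have e1 : V (η, ω + m • α) = fun n : ℤ => f (ω + (m + n) • α) := by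
      funext n
      rw [hV, hf]
      simp only [ContinuousMap.coe_mk]
      rw [add_zsmul, add_assoc]
    rw [e1] at h1
    obtain ⟨h2, h3⟩ := h1
    refine tDelta _ L a τ d hL hpos h2 ?_ p1 p2 p3 p4 p5 p6
    exact (tendsto_add_atTop_nat 1).eventually h3

end Pool.Agent.TH796.PP
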