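import Pool.Agent.H695R3.PP.Stmts

/-!
# TaskContr: two steps of the transfer operator are a strict contraction of `L²`
-/

set_option autoImplicit false

open scoped BigOperators ENNReal
open MeasureTheory

namespace Pool.Agent.TH796.PP

open Pool.Agent.H695R3.PP

theorem measurable_UR (c : ℝ) (g : ℝ → ℝ≥0∞) (hg : Measurable g) : Measurable (UR c g) := by
  unfold UR
  refine Measurable.mul ?_ ?_
  · exact (measurable_id.abs.inv).ennreal_ofReal
  · exact hg.comp (measurable_const.sub measurable_id.inv)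

theorem taskContr (hIso : TaskIso) (hAvg : TaskAvg) (hDich : TaskDich) : TaskContr := by
  obtain ⟨C, hC1, hD⟩ := hDich
  have hc0 : 0 < (3 / 4 : ℝ) / (7 / 8 + C) := by positivity
  refine ⟨3 / 4 / (7 / 8 + C), hc0, ?_, ?_⟩
  · rw [div_le_iff₀ (by positivity)]; linarith
  intro ε c₁ g hε hε1 hg
  set c : ℝ := 3 / 4 / (7 / 8 + C) with hc
  obtain ⟨hm1, ha1, ha2, -⟩ := hAvg ε g hε hε1 hg
  set h : ℝ → ℝ≥0∞ := avg ε g with hh
  obtain ⟨hi1, hi2⟩ := hIso c₁ h hm1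
  set G : ℝ → ℝ≥0∞ := UR c₁ h with hG
  have hGm : Measurable G := measurable_UR c₁ h hm1
  obtain ⟨-, hb1, -, -⟩ := hAvg ε G hε hε1 hGm
  have hcε : 0 < 1 - c * ε ^ 2 := by
    have h1 : c ≤ 1 / 2 := by rw [hc, div_le_iff₀ (by positivity)]; linarith
    nlinarith [hε.le, hε1, hc0]
  have hba : nsqL (avg ε G) ≤ nsqL h := hb1.trans hi1.le
  rcases eq_or_ne (nsqL g) ∞ with hN | hN
  · rw [hN, ENNReal.mul_top (by simpa using hcε)]
    exact le_top
  -- everything is finite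
  have hNa : nsqL h ≠ ∞ := ne_top_of_le_ne_top hN ha1
  have hNb : nsqL (avg ε G) ≠ ∞ := ne_top_of_le_ne_top hNa hba
  have d1 := hD ε g (c₁ - 2) hε hε1 hg
  have d2 := hD ε G (-2) hε hε1 hGm
  rw [hi1] at d2
  -- the mass of `G`
  have hsplit : nsqL h ≤ (∫⁻ x in Set.Icc (-2 : ℝ) (-2 + 4), G x ^ 2) +
      ∫⁻ x in Set.Icc (c₁ - 2) (c₁ - 2 + 4), g x ^ 2 := by
    rw [← hi1]
    have e1 : nsqL G ≤ (∫⁻ x in Set.Icc (-2 : ℝ) (-2 + 4), G x ^ 2) +
        ∫⁻ z in {z : ℝ | 1 < |z|}, G z ^ 2 := by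
      unfold nsqL
      rw [← setLIntegral_univ]
      refine (lintegral_mono_set (t := Set.Icc (-2 : ℝ) (-2 + 4) ∪ {z : ℝ | 1 < |z|}) ?_).trans
        (lintegral_union_le _ _ _)
      intro z _
      by_cases hz : 1 < |z|
      · right; exact hz
      · left
        rw [not_lt, abs_le] at hz
        constructor <;> linarith [hz.1, hz.2]
    refine e1.trans (add_le_add le_rfl (hi2.trans ((ha2 c₁).trans ?_)))
    refine lintegral_mono_set ?_
    rw [show c₁ - 2 + 4 = c₁ + 2 by ring]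
  -- to real numbers
  set n : ℝ := (nsqL g).toReal with hn
  set a : ℝ := (nsqL h).toReal with haa
  set b : ℝ := (nsqL (avg ε G)).toReal with hbb
  have en : nsqL g = ENNReal.ofReal n := (ENNReal.ofReal_toReal hN).symm
  have ea : nsqL h = ENNReal.ofReal a := (ENNReal.ofReal_toReal hNa).symm
  have eb : nsqL (avg ε G) = ENNReal.ofReal b := (ENNReal.ofReal_toReal hNb).symm
  have hn0 : 0 ≤ n := ENNReal.toReal_nonneg
  have ha0 : 0 ≤ a := ENNReal.toReal_nonneg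
  have hb0 : 0 ≤ b := ENNReal.toReal_nonneg
  have hba' : b ≤ a := ENNReal.toReal_mono hNa hba
  have hCε : 0 < C / ε ^ 2 := by positivity
  set K : ℝ := C / ε ^ 2 with hK
  have mg : (∫⁻ x in Set.Icc (c₁ - 2) (c₁ - 2 + 4), g x ^ 2) ≠ ∞ :=
    ne_top_of_le_ne_top hN (setLIntegral_le_lintegral _ _)
  have mG : (∫⁻ x in Set.Icc (-2 : ℝ) (-2 + 4), G x ^ 2) ≠ ∞ := by
    refine ne_top_of_le_ne_top hNa ?_
    rw [← hi1]
    exact setLIntegral_le_lintegral _ _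
  obtain ⟨u, hu0, hu⟩ : ∃ u : ℝ, 0 ≤ u ∧
      (∫⁻ x in Set.Icc (c₁ - 2) (c₁ - 2 + 4), g x ^ 2) = ENNReal.ofReal u :=
    ⟨_, ENNReal.toReal_nonneg, (ENNReal.ofReal_toReal mg).symm⟩
  obtain ⟨v, hv0, hv⟩ : ∃ v : ℝ, 0 ≤ v ∧
      (∫⁻ x in Set.Icc (-2 : ℝ) (-2 + 4), G x ^ 2) = ENNReal.ofReal v :=
    ⟨_, ENNReal.toReal_nonneg, (ENNReal.ofReal_toReal mG).symm⟩
  rw [hu, en, ea, ← ENNReal.ofReal_mul hCε.le, ← ENNReal.ofReal_mul hCε.le,
    ← ENNReal.ofReal_mul (by norm_num), ← ENNReal.ofReal_add hu0 (by positivity),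
    ← ENNReal.ofReal_add (by positivity) (by positivity),
    ENNReal.ofReal_le_ofReal_iff (by positivity)] at d1
  rw [hv, ea, eb, ← ENNReal.ofReal_mul hCε.le, ← ENNReal.ofReal_mul hCε.le,
    ← ENNReal.ofReal_mul (by norm_num), ← ENNReal.ofReal_add hv0 (by positivity),
    ← ENNReal.ofReal_add (by positivity) (by positivity),
    ENNReal.ofReal_le_ofReal_iff (by positivity)] at d2
  rw [hu, hv, ea, ← ENNReal.ofReal_add hv0 hu0, ENNReal.ofReal_le_ofReal_iff (by positivity)]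
    at hsplit
  rw [eb, en, ← ENNReal.ofReal_mul hcε.le]
  refine ENNReal.ofReal_le_ofReal ?_
  -- `(7/8 + K) b ≤ (1/8 + K) n`
  have key : (7 / 8 + K) * b ≤ (1 / 8 + K) * n := by nlinarith
  have hKε : K * ε ^ 2 = C := by rw [hK]; field_simp
  have key2 : (7 / 8 * ε ^ 2 + C) * b ≤ (1 / 8 * ε ^ 2 + C) * n := by
    have h1 := mul_le_mul_of_nonneg_left key (sq_nonneg ε)
    calc (7 / 8 * ε ^ 2 + C) * b = ε ^ 2 * ((7 / 8 + K) * b) := by rw [← hKε]; ring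
      _ ≤ ε ^ 2 * ((1 / 8 + K) * n) := h1
      _ = (1 / 8 * ε ^ 2 + C) * n := by rw [← hKε]; ring
  have hden : 0 < 7 / 8 * ε ^ 2 + C := by positivity
  have h3 : (1 / 8 * ε ^ 2 + C) ≤ (7 / 8 * ε ^ 2 + C) * (1 - c * ε ^ 2) := by
    have h4 : c * (7 / 8 * ε ^ 2 + C) ≤ 3 / 4 := by
      rw [hc, div_mul_eq_mul_div, div_le_iff₀ (by positivity)]
      nlinarith [sq_nonneg ε, hε1, hε.le, pow_le_one₀ (n := 2) hε.le hε1]
    nlinarith [sq_nonneg ε]
  by_contra hcon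
  push Not at hcon
  have h5 := mul_lt_mul_of_pos_left hcon hden
  have h6 := mul_le_mul_of_nonneg_right h3 hn0
  nlinarith

end Pool.Agent.TH796.PP
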