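import Pool.Agent.TH796.PP.JJ

/-!
# TaskFE: the fixed energy estimate
-/

set_option autoImplicit false

open scoped BigOperators ENNReal
open MeasureTheory

namespace Pool.Agent.TH796.PP

open Pool.Agent.H695R3.PP

theorem U_le (S : Set ℝ) : U S ≤ ENNReal.ofReal (1 / 2) * volume S := by
  unfold U
  rw [Measure.smul_apply, smul_eq_mul]
  exact mul_le_mul_right (Measure.restrict_apply_le _ _) _

theorem U_le_one (S : Set ℝ) : U S ≤ 1 := prob_le_one

/-- an affine function is small with small probability -/
theorem U_affine (p q t : ℝ) (hp : p ≠ 0) :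
    U {s : ℝ | |p * s + q| ≤ t} ≤ ENNReal.ofReal (t / |p|) := by
  refine (U_le _).trans ?_
  have hp' : 0 < |p| := abs_pos.2 hp
  have h1 : {s : ℝ | |p * s + q| ≤ t} ⊆ Set.Icc (-(q / p) - t / |p|) (-(q / p) + t / |p|) := by
    intro s hs
    have hs' : |p * s + q| ≤ t := hs
    have h2 : |s + q / p| ≤ t / |p| := by
      rw [le_div_iff₀ hp', ← abs_mul]
      have : (s + q / p) * p = p * s + q := by field_simp
      rw [this]
      exact hs'
    rw [abs_le] at h2
    constructor <;> linarith [h2.1, h2.2]
  refine (mul_le_mul_right (measure_mono h1) _).trans ?_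
  rw [Real.volume_Icc, ← ENNReal.ofReal_mul (by norm_num)]
  refine ENNReal.ofReal_le_ofReal ?_
  linarith

theorem rlen_pos (V : ℤ → ℝ) (E : ℝ) (b : ℤ) (j : ℕ) : 0 < rlen V E b j := by
  unfold rlen
  apply Real.sqrt_pos.2
  induction j with
  | zero => simp [rsol]
  | succ j ih =>
    rw [rsol]
    simp only
    by_contra h
    push Not at h
    have h1 := sq_nonneg ((E - V (b - j)) * (rsol V E b j).1 - (rsol V E b j).2)
    have h2 := sq_nonneg (rsol V E b j).1
    have h3 : (rsol V E b j).1 = 0 := by nlinarith
    rw [h3] at h h1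
    have h4 : (rsol V E b j).2 = 0 := by nlinarith
    rw [h3, h4] at ih
    simp at ih

theorem PZ_resample (m : ℤ) (S : Set (ℤ → ℝ)) (hSm : MeasurableSet S) :
    PZ S = ∫⁻ x, U {s | Function.update x m s ∈ S} ∂PZ := by
  have h2 := resample_lintegral m (S.indicator 1) ((measurable_const).indicator hSm)
  rw [lintegral_indicator_one hSm] at h2
  rw [h2]
  refine lintegral_congr fun x => ?_
  have hup : Measurable fun s : ℝ => Function.update x m s := measurable_update x
  have h3 : (fun s => S.indicator (1 : (ℤ → ℝ) → ℝ≥0∞) (Function.update x m s)) =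
      ({s | Function.update x m s ∈ S}).indicator 1 := by
    funext s
    rfl
  rw [h3]
  exact lintegral_indicator_one (hup hSm)

theorem taskFE (hJ : TaskJ) : TaskFE := by
  obtain ⟨c, C, hc0, hc1, hC, hJ⟩ := hJ
  refine ⟨c, 16 * C, hc0, hc1, by positivity, ?_⟩
  intro ε R E t W L hε hε1 hR hE hW ht hL
  obtain ⟨m, rfl⟩ : ∃ m, L = m + 1 := ⟨L - 1, by omega⟩
  set b : ℤ := ((m + 1 : ℕ) : ℤ) with hb
  have hε2 : ε ^ 2 ≤ 1 := pow_le_one₀ hε.le hε1
  have hq0 : 0 ≤ 1 - c * ε ^ 2 := by nlinarith [sq_nonneg ε]
  have hq1 : 1 / 2 ≤ 1 - c * ε ^ 2 := by nlinarith [sq_nonneg ε]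
  set S : Set (ℤ → ℝ) := {x | |(rsol (fun n => W n + ε * x n) E b (m + 1)).1| ≤ t} with hS
  have hSm : MeasurableSet S := by
    have h1 : Measurable fun x : ℤ → ℝ => |(rsol (fun n => W n + ε * x n) E b (m + 1)).1| :=
      ((measurable_rsol E b (m + 1)).comp (measurable_aff W ε)).fst.abs
    exact measurableSet_le h1 measurable_const
  -- the conditional probability
  have hcond : ∀ x : ℤ → ℝ, U {s | Function.update x (b - m) s ∈ S} ≤
      ENNReal.ofReal (8 * R * t / ε) *
        ENNReal.ofReal (1 / rlen (fun n => W n + ε * x n) E b m) := by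
    intro x
    set r := rlen (fun n => W n + ε * x n) E b m with hr
    have hr0 : 0 < r := rlen_pos _ _ _ _
    rw [← ENNReal.ofReal_mul (by positivity)]
    set p := (rsol (fun n => W n + ε * x n) E b m).1 with hp
    set q := (rsol (fun n => W n + ε * x n) E b m).2 with hq
    have hrr : r ^ 2 = p ^ 2 + q ^ 2 := by
      rw [hr, rlen, Real.sq_sqrt (by positivity)]
    have e1 : ∀ s, (rsol (fun n => W n + ε * Function.update x (b - (m : ℤ)) s n) E b (m + 1)).1 =
        (-(ε * p)) * s + ((E - W (b - m)) * p - q) := by
      intro s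
      rw [rsol]
      have e3 : rsol (fun n => W n + ε * Function.update x (b - (m : ℤ)) s n) E b m =
          rsol (fun n => W n + ε * x n) E b m := by
        apply rsol_congr
        intro i hi
        rw [Function.update_of_ne (by omega)]
      rw [e3]
      simp only [Function.update_self]
      rw [← hp, ← hq]
      ring
    have e2 : {s | Function.update x (b - m) s ∈ S} =
        {s | |(-(ε * p)) * s + ((E - W (b - m)) * p - q)| ≤ t} := by
      ext s
      rw [hS]
      simp only [Set.mem_ofPred_eq]
      rw [e1]
    rw [e2]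
    by_cases hcase : r / (8 * R) ≤ |p|
    · have hp0 : 0 < |p| := lt_of_lt_of_le (by positivity) hcase
      have hpne : p ≠ 0 := abs_pos.1 hp0
      refine (U_affine _ _ t (neg_ne_zero.2 (mul_ne_zero hε.ne' hpne))).trans ?_
      refine ENNReal.ofReal_le_ofReal ?_
      rw [abs_neg, abs_mul, abs_of_pos hε]
      have h5 : r ≤ 8 * R * |p| := by
        rw [div_le_iff₀ (by positivity)] at hcase
        linarith
      rw [show 8 * R * t / ε * (1 / r) = (8 * R * t) / (ε * r) by field_simp,
        div_le_div_iff₀ (by positivity) (by positivity)]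
      have h6 : 0 ≤ t * ε := by positivity
      nlinarith [mul_le_mul_of_nonneg_left h5 h6]
    · push Not at hcase
      by_cases hemp : 8 * t < r
      · -- empty
        have : U {s | |(-(ε * p)) * s + ((E - W (b - m)) * p - q)| ≤ t} = 0 := by
          have hsub : {s | |(-(ε * p)) * s + ((E - W (b - m)) * p - q)| ≤ t} ⊆
              (Set.Icc (-1 : ℝ) 1)ᶜ := by
            intro s hs hs1
            have hs' : |(-(ε * p)) * s + ((E - W (b - m)) * p - q)| ≤ t := hs
            have hR8 : 8 * R * |p| < r := by
              rw [lt_div_iff₀ (by positivity)] at hcase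
              linarith
            have hsabs : |s| ≤ 1 := abs_le.2 ⟨hs1.1, hs1.2⟩
            have h7 : |E - W (b - m) - ε * s| ≤ 3 * R := by
              have h8 := abs_sub (E - W (b - m)) (ε * s)
              have h9 := abs_sub E (W (b - m))
              have h10 : |ε * s| ≤ 1 := by
                rw [abs_mul, abs_of_pos hε]
                nlinarith [abs_nonneg s]
              linarith [hW (b - m)]
            have h11 : |q| ≤ |(-(ε * p)) * s + ((E - W (b - m)) * p - q)| + 3 * R * |p| := by
              have e4 : q = (E - W (b - m) - ε * s) * p -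
                  ((-(ε * p)) * s + ((E - W (b - m)) * p - q)) := by ring
              have h12 : |q| ≤ |(E - W (b - m) - ε * s) * p| +
                  |(-(ε * p)) * s + ((E - W (b - m)) * p - q)| := by
                conv_lhs => rw [e4]
                exact abs_sub _ _
              rw [abs_mul] at h12
              have h13 := mul_le_mul_of_nonneg_right h7 (abs_nonneg p)
              linarith
            -- `|q| ≤ t + 3R|p| < r/8 + 3r/8 = r/2`, `|p| ≤ r/8`
            have h14 : |q| < r / 2 := by nlinarith
            have h15 : |p| < r / 8 := by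
              have : |p| ≤ R * |p| := by nlinarith [abs_nonneg p]
              linarith
            have h16 : p ^ 2 + q ^ 2 < r ^ 2 := by
              rw [← sq_abs p, ← sq_abs q]
              nlinarith [abs_nonneg p, abs_nonneg q]
            linarith
          refine measure_mono_null hsub ?_
          unfold U
          rw [Measure.smul_apply, Measure.restrict_apply measurableSet_Icc.compl]
          simp
        rw [this]
        exact bot_le
      · push Not at hemp
        refine (U_le_one _).trans ?_
        rw [← ENNReal.ofReal_one]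
        refine ENNReal.ofReal_le_ofReal ?_
        rw [show 8 * R * t / ε * (1 / r) = (8 * R * t) / (ε * r) by field_simp,
          le_div_iff₀ (by positivity), one_mul]
        have : ε * r ≤ 1 * (8 * t) := mul_le_mul hε1 hemp hr0.le (by norm_num)
        nlinarith
  -- integrate
  have h1 : PZ S = ∫⁻ x, U {s | Function.update x (b - m) s ∈ S} ∂PZ := PZ_resample _ S hSm
  rw [h1]
  refine (lintegral_mono hcond).trans ?_
  rw [lintegral_const_mul]
  · refine (mul_le_mul_right (hJ ε E W b m hε hε1) _).trans ?_
    rw [← ENNReal.ofReal_mul (by positivity)]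
    refine ENNReal.ofReal_le_ofReal ?_
    have h4 : (1 - c * ε ^ 2) ^ m ≤ 2 * (1 - c * ε ^ 2) ^ (m + 1) := by
      rw [pow_succ (1 - c * ε ^ 2) m]
      have : 0 ≤ (1 - c * ε ^ 2) ^ m := by positivity
      nlinarith
    calc 8 * R * t / ε * (C / ε * (1 - c * ε ^ 2) ^ m) =
          (8 * R * t * C / ε ^ 2) * (1 - c * ε ^ 2) ^ m := by field_simp
      _ ≤ (8 * R * t * C / ε ^ 2) * (2 * (1 - c * ε ^ 2) ^ (m + 1)) := by gcongr
      _ = 16 * C * R / ε ^ 2 * t * (1 - c * ε ^ 2) ^ (m + 1) := by ring
  · have h5 : Measurable fun x : ℤ → ℝ => rlen (fun n => W n + ε * x n) E b m := by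
      unfold rlen
      have h6 : Measurable fun x : ℤ → ℝ => (rsol (fun n => W n + ε * x n) E b m) :=
        (measurable_rsol E b m).comp (measurable_aff W ε)
      exact ((h6.fst.pow_const 2).add (h6.snd.pow_const 2)).sqrt
    exact (measurable_const.div h5).ennreal_ofReal

end Pool.Agent.TH796.PP
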