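import Pool.Agent.H695R3.PP.Stmts

/-!
# TaskClosed, TaskClosed2, TaskMeas: measurability of the bad events
-/

set_option autoImplicit false

open scoped BigOperators ENNReal
open MeasureTheory

namespace Pool.Agent.TH796.PP

open Pool.Agent.H695R3.PP

/-- the compact set of energies and normalised vectors -/
def KK (a b : ℤ) (R : ℝ) : Set (ℝ × (ℤ → ℝ)) :=
  {p | |p.1| ≤ R ∧ (∀ n, n < a ∨ b < n → p.2 n = 0) ∧ nsq a b p.2 = 1}

theorem isClosed_KK (a b : ℤ) (R : ℝ) : IsClosed (KK a b R) := by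
  have c1 : IsClosed {p : ℝ × (ℤ → ℝ) | |p.1| ≤ R} :=
    isClosed_le (by fun_prop) continuous_const
  have c2 : IsClosed {p : ℝ × (ℤ → ℝ) | ∀ n, n < a ∨ b < n → p.2 n = 0} := by
    have : {p : ℝ × (ℤ → ℝ) | ∀ n, n < a ∨ b < n → p.2 n = 0} =
        ⋂ n, {p : ℝ × (ℤ → ℝ) | n < a ∨ b < n → p.2 n = 0} := by
      ext p; simp
    rw [this]
    refine isClosed_iInter fun n => ?_
    by_cases hn : n < a ∨ b < n
    · simp only [hn, true_imp_iff]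
      exact isClosed_eq (by fun_prop) continuous_const
    · simp only [hn, false_imp_iff]
      exact isClosed_univ
  have c3 : IsClosed {p : ℝ × (ℤ → ℝ) | nsq a b p.2 = 1} := by
    unfold nsq
    exact isClosed_eq (by fun_prop) continuous_const
  exact c1.inter (c2.inter c3)

theorem isCompact_KK (a b : ℤ) (R : ℝ) : IsCompact (KK a b R) := by
  have hc : IsCompact ((Set.Icc (-R) R) ×ˢ (Set.univ.pi fun _ : ℤ => Set.Icc (-1 : ℝ) 1)) :=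
    isCompact_Icc.prod (isCompact_univ_pi fun _ => isCompact_Icc)
  refine hc.of_isClosed_subset (isClosed_KK a b R) ?_
  rintro ⟨E, ψ⟩ ⟨h1, h2, h3⟩
  refine ⟨abs_le.1 h1, fun n _ => ?_⟩
  simp only at h2 h3 ⊢
  by_cases hn : n < a ∨ b < n
  · rw [h2 n hn]; constructor <;> norm_num
  · have hm : n ∈ Finset.Icc a b := by rw [Finset.mem_Icc]; omega
    have h4 : ψ n ^ 2 ≤ 1 := by
      rw [← h3]
      exact Finset.single_le_sum (f := fun n => ψ n ^ 2) (fun i _ => sq_nonneg _) hm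
    exact abs_le.1 ((sq_le_one_iff_abs_le_one _).1 h4)

theorem isClosed_eqn (a b : ℤ) :
    IsClosed {q : (ℝ × (ℤ → ℝ)) × (ℤ → ℝ) | ∀ n, a ≤ n → n ≤ b →
      q.1.2 (n + 1) + q.1.2 (n - 1) + q.2 n * q.1.2 n = q.1.1 * q.1.2 n} := by
  have : {q : (ℝ × (ℤ → ℝ)) × (ℤ → ℝ) | ∀ n, a ≤ n → n ≤ b →
      q.1.2 (n + 1) + q.1.2 (n - 1) + q.2 n * q.1.2 n = q.1.1 * q.1.2 n} =
      ⋂ n, {q | a ≤ n → n ≤ b →
      q.1.2 (n + 1) + q.1.2 (n - 1) + q.2 n * q.1.2 n = q.1.1 * q.1.2 n} := by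
    ext p; simp
  refine this ▸ isClosed_iInter fun n => ?_
  by_cases h1 : a ≤ n
  · by_cases h2 : n ≤ b
    · simp only [h1, h2, true_imp_iff]
      exact isClosed_eq (by fun_prop) (by fun_prop)
    · simp only [h2, false_imp_iff, imp_true_iff]
      exact isClosed_univ
  · simp only [h1, false_imp_iff]
    exact isClosed_univ

/-- projection of a closed set along a compact set -/
theorem isClosed_proj {X Y : Type*} [TopologicalSpace X] [TopologicalSpace Y] (K : Set X)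
    (hK : IsCompact K) (C : Set (X × Y)) (hC : IsClosed C) :
    IsClosed {y : Y | ∃ x ∈ K, (x, y) ∈ C} := by
  have : CompactSpace K := isCompact_iff_compactSpace.1 hK
  have h1 : IsClosedMap (Prod.snd : K × Y → Y) := isClosedMap_snd_of_compactSpace
  have h2 : IsClosed {p : K × Y | ((p.1 : X), p.2) ∈ C} :=
    hC.preimage ((continuous_subtype_val.comp continuous_fst).prodMk continuous_snd)
  have h3 := h1 _ h2
  convert h3 using 1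
  ext y
  simp only [Set.mem_ofPred_eq, Set.mem_image, Prod.exists, exists_eq_right,
    Subtype.exists, exists_prop]

theorem taskClosed : TaskClosed := by
  intro a b R C hC
  have h := isClosed_proj (KK a b R) (isCompact_KK a b R) _ ((isClosed_eqn a b).inter hC)
  convert h using 1
  ext V
  constructor
  · rintro ⟨E, ψ, hE, ⟨h1, h2, h3⟩, h4⟩
    exact ⟨(E, ψ), ⟨hE, h1, h2⟩, h3, h4⟩
  · rintro ⟨⟨E, ψ⟩, ⟨hE, h1, h2⟩, h3, h4⟩
    exact ⟨E, ψ, hE, ⟨h1, h2, h3⟩, h4⟩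

theorem taskClosed2 : TaskClosed2 := by
  intro a b a' b' R C hC
  have hc1 : IsClosed {q : ((ℝ × (ℤ → ℝ)) × (ℝ × (ℤ → ℝ))) × (ℤ → ℝ) |
      ((q.1.1, q.2) : (ℝ × (ℤ → ℝ)) × (ℤ → ℝ)) ∈ {q : (ℝ × (ℤ → ℝ)) × (ℤ → ℝ) |
      ∀ n, a ≤ n → n ≤ b →
      q.1.2 (n + 1) + q.1.2 (n - 1) + q.2 n * q.1.2 n = q.1.1 * q.1.2 n}} :=
    (isClosed_eqn a b).preimage (by fun_prop)
  have hc2 : IsClosed {q : ((ℝ × (ℤ → ℝ)) × (ℝ × (ℤ → ℝ))) × (ℤ → ℝ) |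
      ((q.1.2, q.2) : (ℝ × (ℤ → ℝ)) × (ℤ → ℝ)) ∈ {q : (ℝ × (ℤ → ℝ)) × (ℤ → ℝ) |
      ∀ n, a' ≤ n → n ≤ b' →
      q.1.2 (n + 1) + q.1.2 (n - 1) + q.2 n * q.1.2 n = q.1.1 * q.1.2 n}} :=
    (isClosed_eqn a' b').preimage (by fun_prop)
  have hc3 : IsClosed {q : ((ℝ × (ℤ → ℝ)) × (ℝ × (ℤ → ℝ))) × (ℤ → ℝ) | q.1 ∈ C} :=
    hC.preimage continuous_fst
  have h := isClosed_proj (KK a b R ×ˢ KK a' b' R)
    ((isCompact_KK a b R).prod (isCompact_KK a' b' R)) _ ((hc1.inter hc2).inter hc3)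
  convert h using 1
  ext V
  constructor
  · rintro ⟨E, ψ, E', ψ', hE, hE', ⟨h1, h2, h3⟩, ⟨h1', h2', h3'⟩, h4⟩
    exact ⟨((E, ψ), (E', ψ')), ⟨⟨hE, h1, h2⟩, ⟨hE', h1', h2'⟩⟩, ⟨h3, h3'⟩, h4⟩
  · rintro ⟨⟨⟨E, ψ⟩, ⟨E', ψ'⟩⟩, ⟨⟨hE, h1, h2⟩, ⟨hE', h1', h2'⟩⟩, ⟨h3, h3'⟩, h4⟩
    exact ⟨E, ψ, E', ψ', hE, hE', ⟨h1, h2, h3⟩, ⟨h1', h2', h3'⟩, h4⟩

theorem taskMeas : TaskMeas := by
  constructor
  · intro L a τ
    have : {V : ℤ → ℝ | Bad1 L a τ V} = ⋃ R : ℕ, {V : ℤ → ℝ | ∃ E ψ, |E| ≤ (R : ℝ) ∧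
        IsEig V (-(L : ℤ)) L E ψ ∧ ((E, ψ), V) ∈ {q : (ℝ × (ℤ → ℝ)) × (ℤ → ℝ) |
          a ≤ |q.1.2 0| ∧ (τ ≤ |q.1.2 L| ∨ τ ≤ |q.1.2 (-(L : ℤ))|)}} := by
      ext V
      simp only [Set.mem_ofPred_eq, Set.mem_iUnion]
      constructor
      · rintro ⟨E, ψ, h1, h2⟩
        obtain ⟨R, hR⟩ := exists_nat_ge |E|
        exact ⟨R, E, ψ, hR, h1, h2⟩
      · rintro ⟨R, E, ψ, hR, h1, h2⟩
        exact ⟨E, ψ, h1, h2⟩
    rw [this]
    refine MeasurableSet.iUnion fun R => (taskClosed _ _ _ _ ?_).measurableSet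
    have k1 : IsClosed {q : (ℝ × (ℤ → ℝ)) × (ℤ → ℝ) | a ≤ |q.1.2 0|} :=
      isClosed_le continuous_const (by fun_prop)
    have k2 : IsClosed {q : (ℝ × (ℤ → ℝ)) × (ℤ → ℝ) | τ ≤ |q.1.2 L|} :=
      isClosed_le continuous_const (by fun_prop)
    have k3 : IsClosed {q : (ℝ × (ℤ → ℝ)) × (ℤ → ℝ) | τ ≤ |q.1.2 (-(L : ℤ))|} :=
      isClosed_le continuous_const (by fun_prop)
    exact k1.inter (k2.union k3)
  · intro L d
    have : {V : ℤ → ℝ | Bad2 L d V} = ⋃ R : ℕ, {V : ℤ → ℝ | ∃ E ψ E' ψ', |E| ≤ (R : ℝ) ∧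
        |E'| ≤ (R : ℝ) ∧ IsEig V (-(L : ℤ)) L E ψ ∧ IsEig V (-(L : ℤ)) L E' ψ' ∧
        ((E, ψ), (E', ψ')) ∈ {q : (ℝ × (ℤ → ℝ)) × (ℝ × (ℤ → ℝ)) |
          1 / ((R : ℝ) + 1) ≤ |q.1.1 - q.2.1| ∧ |q.1.1 - q.2.1| ≤ d}} := by
      ext V
      simp only [Set.mem_ofPred_eq, Set.mem_iUnion]
      constructor
      · rintro ⟨E, ψ, E', ψ', h1, h2, h3, h4⟩
        have hpos : 0 < |E - E'| := abs_pos.2 (sub_ne_zero.2 h3)
        obtain ⟨R, hR⟩ := exists_nat_ge (max (max |E| |E'|) (1 / |E - E'|))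
        refine ⟨R, E, ψ, E', ψ', ((le_max_left _ _).trans (le_max_left _ _)).trans hR,
          ((le_max_right _ _).trans (le_max_left _ _)).trans hR, h1, h2, ?_, h4⟩
        have h5 : 1 / |E - E'| ≤ (R : ℝ) + 1 := by
          have := (le_max_right _ _).trans hR
          linarith
        rw [div_le_iff₀ (by positivity)]
        rw [div_le_iff₀ hpos] at h5
        linarith
      · rintro ⟨R, E, ψ, E', ψ', -, -, h1, h2, h3, h4⟩
        refine ⟨E, ψ, E', ψ', h1, h2, ?_, h4⟩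
        intro h
        rw [h, sub_self, abs_zero] at h3
        have : (0 : ℝ) < 1 / ((R : ℝ) + 1) := by positivity
        linarith
    rw [this]
    refine MeasurableSet.iUnion fun R => (taskClosed2 _ _ _ _ _ _ ?_).measurableSet
    have k1 : IsClosed {q : (ℝ × (ℤ → ℝ)) × (ℝ × (ℤ → ℝ)) | 1 / ((R : ℝ) + 1) ≤ |q.1.1 - q.2.1|} :=
      isClosed_le continuous_const (by fun_prop)
    have k2 : IsClosed {q : (ℝ × (ℤ → ℝ)) × (ℝ × (ℤ → ℝ)) | |q.1.1 - q.2.1| ≤ d} :=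
      isClosed_le (by fun_prop) continuous_const
    exact k1.inter k2

end Pool.Agent.TH796.PP
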