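import Pool.Agent.TH796.PP.SA
import Pool.Agent.TH796.PP.Meas

/-!
# TaskG1: the probability of the first bad event
-/

set_option autoImplicit false

open scoped BigOperators ENNReal
open MeasureTheory

namespace Pool.Agent.TH796.PP

open Pool.Agent.H695R3.PP

theorem PZ_reflect : PZ.map (fun (x : ℤ → ℝ) (n : ℤ) => x (-n)) = PZ := by
  unfold PZ
  refine Measure.eq_infinitePi _ fun s t ht => ?_
  have hm : Measurable (fun (x : ℤ → ℝ) (n : ℤ) => x (-n)) := by fun_prop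
  have hpi : MeasurableSet (Set.pi (s : Set ℤ) t) :=
    MeasurableSet.pi s.countable_toSet fun j _ => ht j
  rw [Measure.map_apply hm hpi]
  have key : (fun (x : ℤ → ℝ) (n : ℤ) => x (-n)) ⁻¹' (Set.pi (s : Set ℤ) t) =
      Set.pi ((s.image fun n => -n : Finset ℤ) : Set ℤ) (fun j => t (-j)) := by
    ext x
    simp only [Set.mem_preimage, Set.mem_pi, Finset.mem_coe, Finset.mem_image]
    constructor
    · rintro h _ ⟨j, hj, rfl⟩
      rw [neg_neg]
      exact h j hj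
    · intro h j hj
      have := h (-j) ⟨j, hj, rfl⟩
      rwa [neg_neg] at this
  rw [key, Measure.infinitePi_pi _ (fun j _ => ht _),
    Finset.prod_image (fun a _ b _ h => neg_injective h)]
  simp

theorem PZ_supp (n : ℤ) : ∀ᵐ x ∂PZ, |x n| ≤ 1 := by
  have h1 : U {s : ℝ | ¬ |s| ≤ 1} = 0 := by
    have : {s : ℝ | ¬ |s| ≤ 1} = (Set.Icc (-1) 1)ᶜ := by
      ext s
      simp only [Set.mem_ofPred_eq, Set.mem_compl_iff, Set.mem_Icc, abs_le]
    rw [this]
    unfold U
    rw [Measure.smul_apply, Measure.restrict_apply measurableSet_Icc.compl]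
    simp
  have h2 : PZ.map (fun x : ℤ → ℝ => x n) = U := by
    unfold PZ
    exact (measurePreserving_eval_infinitePi (fun _ : ℤ => U) n).map_eq
  have h3 : ∀ᵐ s ∂U, |s| ≤ 1 := by
    rw [ae_iff]; exact h1
  rw [← h2] at h3
  exact ae_of_ae_map (measurable_pi_apply n).aemeasurable h3

/-- eigenvectors are given by the solution from the right end -/
theorem eig_rsol {V : ℤ → ℝ} {a b : ℤ} {E : ℝ} {ψ : ℤ → ℝ} (h : IsEig V a b E ψ) (j : ℕ)
    (hj : (j : ℤ) ≤ b - a + 1) :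
    ψ (b - j) = ψ b * (rsol V E b j).1 ∧ ψ (b - j + 1) = ψ b * (rsol V E b j).2 := by
  induction j with
  | zero =>
    simp only [Nat.cast_zero, sub_zero, rsol, mul_one, mul_zero, true_and]
    exact h.1 _ (by omega)
  | succ j ih =>
    obtain ⟨h1, h2⟩ := ih (by push_cast at hj; omega)
    rw [rsol]
    simp only
    have h3 := h.2.2 (b - j) (by push_cast at hj; omega) (by omega)
    have e1 : b - ((j + 1 : ℕ) : ℤ) = b - j - 1 := by push_cast; ring
    rw [e1, sub_add_cancel]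
    refine ⟨?_, h1⟩
    rw [h2, h1] at h3
    linear_combination h3

/-- bound for the energies -/
theorem eig_bound {V : ℤ → ℝ} {a b : ℤ} {E M : ℝ} {ψ : ℤ → ℝ} (h : IsEig V a b E ψ)
    (hV : ∀ n, a ≤ n → n ≤ b → |V n| ≤ M) : |E| ≤ M + 2 := by
  have hne : (Finset.Icc a b).Nonempty := by
    rw [Finset.nonempty_iff_ne_empty]
    intro he
    have := h.2.1
    unfold nsq at this
    rw [he, Finset.sum_empty] at this
    norm_num at this
  obtain ⟨m, hm, hmax⟩ := Finset.exists_max_image (Finset.Icc a b) (fun n => |ψ n|) hne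
  rw [Finset.mem_Icc] at hm
  have hall : ∀ n, |ψ n| ≤ |ψ m| := by
    intro n
    by_cases hn : n ∈ Finset.Icc a b
    · exact hmax n hn
    · rw [Finset.mem_Icc] at hn
      rw [h.1 n (by omega), abs_zero]
      exact abs_nonneg _
  have hpos : 0 < |ψ m| := by
    by_contra hcon
    have h0 : |ψ m| = 0 := le_antisymm (not_lt.1 hcon) (abs_nonneg _)
    have h1 := h.2.1
    unfold nsq at h1
    rw [Finset.sum_eq_zero] at h1
    · norm_num at h1
    · intro n _
      have := (hall n).trans h0.le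
      have h2 : ψ n = 0 := abs_eq_zero.1 (le_antisymm this (abs_nonneg _))
      rw [h2]; ring
  have h3 := h.2.2 m hm.1 hm.2
  have h4 : |E| * |ψ m| ≤ (M + 2) * |ψ m| := by
    rw [← abs_mul, ← h3]
    calc |ψ (m + 1) + ψ (m - 1) + V m * ψ m| ≤ |ψ (m + 1) + ψ (m - 1)| + |V m * ψ m| :=
          abs_add_le _ _
      _ ≤ |ψ (m + 1)| + |ψ (m - 1)| + |V m| * |ψ m| := by
          rw [abs_mul]
          exact add_le_add (abs_add_le _ _) le_rfl
      _ ≤ |ψ m| + |ψ m| + M * |ψ m| := by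
          have := mul_le_mul_of_nonneg_right (hV m hm.1 hm.2) (abs_nonneg (ψ m))
          linarith [hall (m + 1), hall (m - 1)]
      _ = (M + 2) * |ψ m| := by ring
  exact le_of_mul_le_mul_right h4 hpos

theorem eig_le_one {V : ℤ → ℝ} {a b : ℤ} {E : ℝ} {ψ : ℤ → ℝ} (h : IsEig V a b E ψ) (n : ℤ) :
    |ψ n| ≤ 1 := by
  by_cases hn : n ∈ Finset.Icc a b
  · have h4 : ψ n ^ 2 ≤ 1 := by
      rw [← h.2.1]
      exact Finset.single_le_sum (f := fun n => ψ n ^ 2) (fun i _ => sq_nonneg _) hn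
    exact (sq_le_one_iff_abs_le_one _).1 h4
  · rw [Finset.mem_Icc] at hn
    rw [h.1 n (by omega), abs_zero]
    exact zero_le_one

/-- The part of the bad event at the right end. -/
def BadR (L : ℕ) (a τ : ℝ) (V : ℤ → ℝ) : Prop :=
  ∃ E ψ, IsEig V (-(L : ℤ)) L E ψ ∧ a ≤ |ψ 0| ∧ τ ≤ |ψ L|

/-- The part of the bad event at the left end. -/
def BadL (L : ℕ) (a τ : ℝ) (V : ℤ → ℝ) : Prop :=
  ∃ E ψ, IsEig V (-(L : ℤ)) L E ψ ∧ a ≤ |ψ 0| ∧ τ ≤ |ψ (-(L : ℤ))|

theorem measurableSet_BadR (L : ℕ) (a τ : ℝ) : MeasurableSet {V : ℤ → ℝ | BadR L a τ V} := by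
  have : {V : ℤ → ℝ | BadR L a τ V} = ⋃ R : ℕ, {V : ℤ → ℝ | ∃ E ψ, |E| ≤ (R : ℝ) ∧
      IsEig V (-(L : ℤ)) L E ψ ∧ ((E, ψ), V) ∈ {q : (ℝ × (ℤ → ℝ)) × (ℤ → ℝ) |
        a ≤ |q.1.2 0| ∧ τ ≤ |q.1.2 L|}} := by
    ext V
    simp only [Set.mem_ofPred_eq, Set.mem_iUnion]
    constructor
    · rintro ⟨E, ψ, h1, h2⟩
      obtain ⟨R, hR⟩ := exists_nat_ge |E|
      exact ⟨R, E, ψ, hR, h1, h2⟩
    · rintro ⟨R, E, ψ, hR, h1, h2⟩
      exact ⟨E, ψ, h1, h2⟩
  rw [this]
  refine MeasurableSet.iUnion fun R => (taskClosed _ _ _ _ ?_).measurableSet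
  have k1 : IsClosed {q : (ℝ × (ℤ → ℝ)) × (ℤ → ℝ) | a ≤ |q.1.2 0|} :=
    isClosed_le continuous_const (by fun_prop)
  have k2 : IsClosed {q : (ℝ × (ℤ → ℝ)) × (ℤ → ℝ) | τ ≤ |q.1.2 L|} :=
    isClosed_le continuous_const (by fun_prop)
  exact k1.inter k2

theorem measurable_rsol2 (b : ℤ) (j : ℕ) :
    Measurable fun p : (ℤ → ℝ) × ℝ => rsol p.1 p.2 b j := by
  induction j with
  | zero => exact measurable_const
  | succ j ih =>
    unfold rsol
    have h1 : Measurable fun p : (ℤ → ℝ) × ℝ => p.1 (b - j) :=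
      (measurable_pi_apply _).comp measurable_fst
    exact (((measurable_snd.sub h1).mul ih.fst).sub ih.snd).prodMk ih.fst

theorem bound_R (c C : ℝ) (hc0 : 0 < c) (hc1 : c ≤ 1 / 2) (hC : 0 < C)
    (hFE : ∀ (ε R E t : ℝ) (W : ℤ → ℝ) (L : ℕ),
    0 < ε → ε ≤ 1 → 1 ≤ R → |E| ≤ R → (∀ n, |W n| ≤ R) → 0 < t → 1 ≤ L →
    PZ {x | |(rsol (fun n => W n + ε * x n) E L L).1| ≤ t} ≤
      ENNReal.ofReal (C * R / ε ^ 2 * t * (1 - c * ε ^ 2) ^ L))
    (ε R a τ : ℝ) (W : ℤ → ℝ) (L : ℕ)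
    (hε : 0 < ε) (hε1 : ε ≤ 1) (hR : 1 ≤ R) (hW : ∀ n, |W n| ≤ R) (ha : 0 < a) (hτ : 0 < τ)
    (hL : 1 ≤ L) :
    PZ {x | BadR L a τ (fun n => W n + ε * x n)} ≤
      ENNReal.ofReal (16 * C * R ^ 2 / (ε ^ 3 * a ^ 2 * τ) * (1 - c * ε ^ 2) ^ L) := by
  have hε2 : ε ^ 2 ≤ 1 := pow_le_one₀ hε.le hε1
  have hq0 : 0 ≤ 1 - c * ε ^ 2 := by nlinarith [sq_nonneg ε]
  set A : (ℤ → ℝ) → Set ℝ := fun x => {E | |E| ≤ R + 3 ∧
    |(rsol (fun n => W n + ε * x n) E L L).1| ≤ 1 / τ} with hA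
  set B : Set (ℤ → ℝ) := {x | BadR L a τ (fun n => W n + ε * x n)} ∩
    ⋂ n : ℤ, {x | |x n| ≤ 1} with hB
  have hBm : MeasurableSet B := by
    refine MeasurableSet.inter ?_ (MeasurableSet.iInter fun n => ?_)
    · exact (measurable_aff W ε) (measurableSet_BadR L a τ)
    · exact measurableSet_le (measurable_pi_apply n).abs measurable_const
  have hBae : PZ {x | BadR L a τ (fun n => W n + ε * x n)} = PZ B := by
    refine measure_congr ?_
    have h1 : ∀ᵐ x ∂PZ, ∀ n : ℤ, |x n| ≤ 1 := ae_all_iff.2 PZ_supp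
    filter_upwards [h1] with x hx
    apply propext
    constructor
    · intro h
      exact ⟨h, Set.mem_iInter.2 hx⟩
    · intro h
      exact h.1
  rw [hBae]
  have h2 := taskSAP W ε (a ^ 2) (-(L : ℤ)) L 0 A B hε (by positivity) hBm ?_ ?_
  · refine h2.trans ?_
    -- Tonelli
    have hAm : MeasurableSet {p : (ℤ → ℝ) × ℝ | |p.2| ≤ R + 3 ∧
        |(rsol (fun n => W n + ε * p.1 n) p.2 L L).1| ≤ 1 / τ} := by
      refine MeasurableSet.inter ?_ ?_
      · exact measurableSet_le measurable_snd.abs measurable_const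
      · have h3 : Measurable fun p : (ℤ → ℝ) × ℝ => (rsol (fun n => W n + ε * p.1 n) p.2 L L) :=
          (measurable_rsol2 L L).comp (((measurable_aff W ε).comp measurable_fst).prodMk
            measurable_snd)
        exact measurableSet_le h3.fst.abs measurable_const
    have h4 : ∫⁻ x, volume (A x) ∂PZ = ∫⁻ E : ℝ, PZ {x | |E| ≤ R + 3 ∧
        |(rsol (fun n => W n + ε * x n) E L L).1| ≤ 1 / τ} := by
      have h5 := Measure.prod_apply (μ := PZ) (ν := (volume : Measure ℝ)) hAm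
      have h6 := Measure.prod_apply_symm (μ := PZ) (ν := (volume : Measure ℝ)) hAm
      rw [h5] at h6
      exact h6
    rw [lintegral_const_mul' _ _ ENNReal.ofReal_ne_top, h4]
    have h7 : ∀ E : ℝ, PZ {x | |E| ≤ R + 3 ∧
        |(rsol (fun n => W n + ε * x n) E L L).1| ≤ 1 / τ} ≤
        (Set.Icc (-(R + 3)) (R + 3)).indicator (fun _ => ENNReal.ofReal
          (C * (R + 3) / ε ^ 2 * (1 / τ) * (1 - c * ε ^ 2) ^ L)) E := by
      intro E
      by_cases hE : |E| ≤ R + 3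
      · have hE' : E ∈ Set.Icc (-(R + 3)) (R + 3) := abs_le.1 hE
        rw [Set.indicator_of_mem hE']
        refine (measure_mono fun x hx => hx.2).trans
          (hFE ε (R + 3) E (1 / τ) W L hε hε1 (by linarith) hE
            (fun n => (hW n).trans (by linarith)) (by positivity) hL)
      · have : {x : ℤ → ℝ | |E| ≤ R + 3 ∧
            |(rsol (fun n => W n + ε * x n) E L L).1| ≤ 1 / τ} = ∅ := by
          ext x
          simp only [Set.mem_ofPred_eq, Set.mem_empty_iff_false, iff_false]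
          exact fun h => hE h.1
        rw [this, measure_empty]
        exact bot_le
    refine (mul_le_mul_right (lintegral_mono h7) _).trans ?_
    rw [lintegral_indicator measurableSet_Icc, setLIntegral_const, Real.volume_Icc,
      ← ENNReal.ofReal_mul (by positivity), ← ENNReal.ofReal_mul (by positivity)]
    refine ENNReal.ofReal_le_ofReal ?_
    have h8 : (R + 3) ^ 2 ≤ 16 * R ^ 2 := by nlinarith
    calc 1 / (2 * ε * a ^ 2) * (C * (R + 3) / ε ^ 2 * (1 / τ) * (1 - c * ε ^ 2) ^ L *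
          (R + 3 - -(R + 3))) = C / (ε ^ 3 * a ^ 2 * τ) * (1 - c * ε ^ 2) ^ L * (R + 3) ^ 2 := by
          field_simp
          ring
      _ ≤ C / (ε ^ 3 * a ^ 2 * τ) * (1 - c * ε ^ 2) ^ L * (16 * R ^ 2) := by gcongr
      _ = 16 * C * R ^ 2 / (ε ^ 3 * a ^ 2 * τ) * (1 - c * ε ^ 2) ^ L := by ring
  · intro x s
    have h3 : ∀ E, rsol (fun n => W n + ε * Function.update x 0 s n) E L L =
        rsol (fun n => W n + ε * x n) E L L := by
      intro E
      apply rsol_congr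
      intro i hi
      rw [Function.update_of_ne (by omega)]
    rw [hA]
    simp only [h3]
  · rintro x ⟨⟨E, ψ, h1, h2, h3⟩, hx⟩
    rw [Set.mem_iInter] at hx
    refine ⟨E, ⟨?_, ?_⟩, ψ, h1, ?_⟩
    · have := eig_bound (M := R + 1) h1 (fun n _ _ => by
        have h5 : |ε * x n| ≤ 1 := by
          rw [abs_mul, abs_of_pos hε]
          have h6 : |x n| ≤ 1 := hx n
          nlinarith [abs_nonneg (x n)]
        exact (abs_add_le _ _).trans (add_le_add (hW n) h5))
      linarith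
    · have h5 := (eig_rsol h1 L (by omega)).1
      rw [sub_self] at h5
      have h6 : 0 < |ψ L| := lt_of_lt_of_le hτ h3
      have h7 : |ψ L| * |(rsol (fun n => W n + ε * x n) E L L).1| ≤ 1 := by
        rw [← abs_mul, ← h5]
        exact eig_le_one h1 0
      rw [le_div_iff₀ hτ]
      have h8 := mul_le_mul_of_nonneg_right h3
        (abs_nonneg (rsol (fun n => W n + ε * x n) E L L).1)
      linarith
    · rw [← sq_abs (ψ 0)]
      exact pow_le_pow_left₀ ha.le h2 2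

theorem badL_iff (L : ℕ) (a τ : ℝ) (V : ℤ → ℝ) (h : BadL L a τ V) :
    BadR L a τ (fun n => V (-n)) := by
  obtain ⟨E, ψ, ⟨h1, h2, h3⟩, h4, h5⟩ := h
  refine ⟨E, fun n => ψ (-n), ⟨?_, ?_, ?_⟩, by simpa using h4, h5⟩
  · intro n hn
    exact h1 (-n) (by omega)
  · rw [← h2]
    unfold nsq
    refine Finset.sum_bij (fun n _ => -n) ?_ ?_ ?_ ?_
    · intro n hn; rw [Finset.mem_Icc] at hn ⊢; omega
    · intro m _ n _ h; exact neg_injective h
    · intro n hn
      refine ⟨-n, ?_, by simp⟩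
      rw [Finset.mem_Icc] at hn ⊢; omega
    · intro n _; rfl
  · intro n hn1 hn2
    have := h3 (-n) (by omega) (by omega)
    have e1 : -(n + 1) = -n - 1 := by ring
    have e2 : -(n - 1) = -n + 1 := by ring
    simp only [e1, e2]
    linarith

theorem taskG1 (hFE : TaskFE) : TaskG1 := by
  obtain ⟨c, C, hc0, hc1, hC, hFE⟩ := hFE
  refine ⟨c, 32 * C, hc0, hc1, by positivity, ?_⟩
  intro ε R a τ W L hε hε1 hR hW ha hτ hL
  have hε2 : ε ^ 2 ≤ 1 := pow_le_one₀ hε.le hε1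
  have hq0 : 0 ≤ 1 - c * ε ^ 2 := by nlinarith [sq_nonneg ε]
  have h1 := bound_R c C hc0 hc1 hC hFE ε R a τ W L hε hε1 hR hW ha hτ hL
  have h2 := bound_R c C hc0 hc1 hC hFE ε R a τ (fun n => W (-n)) L hε hε1 hR
    (fun n => hW _) ha hτ hL
  have h3 : PZ {x | BadL L a τ (fun n => W n + ε * x n)} ≤
      PZ {x | BadR L a τ (fun n => W (-n) + ε * x n)} := by
    have hm : Measurable (fun (x : ℤ → ℝ) (n : ℤ) => x (-n)) := by fun_prop
    have hmS : MeasurableSet {x : ℤ → ℝ | BadR L a τ (fun n => W (-n) + ε * x n)} :=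
      (measurable_aff (fun n => W (-n)) ε) (measurableSet_BadR L a τ)
    conv_rhs => rw [← PZ_reflect]
    rw [Measure.map_apply hm hmS]
    refine measure_mono fun x hx => ?_
    exact badL_iff L a τ _ hx
  have h4 : {x : ℤ → ℝ | Bad1 L a τ (fun n => W n + ε * x n)} ⊆
      {x | BadR L a τ (fun n => W n + ε * x n)} ∪ {x | BadL L a τ (fun n => W n + ε * x n)} := by
    rintro x ⟨E, ψ, k1, k2, k3 | k3⟩
    · left; exact ⟨E, ψ, k1, k2, k3⟩
    · right; exact ⟨E, ψ, k1, k2, k3⟩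
  refine (measure_mono h4).trans ((measure_union_le _ _).trans
    ((add_le_add h1 (h3.trans h2)).trans ?_))
  rw [← ENNReal.ofReal_add (by positivity) (by positivity)]
  refine ENNReal.ofReal_le_ofReal (le_of_eq ?_)
  ring

end Pool.Agent.TH796.PP
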