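import Pool.Agent.TH796.PP.G1

/-!
# TaskG2: the probability of the second bad event
-/

set_option autoImplicit false

open scoped BigOperators ENNReal
open MeasureTheory

namespace Pool.Agent.TH796.PP

open Pool.Agent.H695R3.PP

theorem isEig_congr {V V' : ℤ → ℝ} {a b : ℤ} {E : ℝ} {ψ : ℤ → ℝ}
    (hV : ∀ n, a ≤ n → n ≤ b → V n = V' n) (h : IsEig V a b E ψ) : IsEig V' a b E ψ := by
  refine ⟨h.1, h.2.1, fun n h1 h2 => ?_⟩
  rw [← hV n h1 h2]
  exact h.2.2 n h1 h2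

/-- the event: close eigenvalues of the two boxes, with weight at `n` -/
def Cl (L : ℕ) (d : ℝ) (m n : ℤ) (V : ℤ → ℝ) : Prop :=
  ∃ lam φ lam' φ', IsEig V (-(L : ℤ)) (m - 1) lam φ ∧ IsEig V m L lam' φ' ∧
    |lam - lam'| ≤ 3 * d ∧ 1 / (2 * (L : ℝ) + 1) ≤ φ' n ^ 2

theorem measurableSet_Cl (L : ℕ) (d : ℝ) (m n : ℤ) :
    MeasurableSet {V : ℤ → ℝ | Cl L d m n V} := by
  have : {V : ℤ → ℝ | Cl L d m n V} = ⋃ R : ℕ, {V : ℤ → ℝ | ∃ E ψ E' ψ', |E| ≤ (R : ℝ) ∧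
      |E'| ≤ (R : ℝ) ∧ IsEig V (-(L : ℤ)) (m - 1) E ψ ∧ IsEig V m L E' ψ' ∧
      ((E, ψ), (E', ψ')) ∈ {q : (ℝ × (ℤ → ℝ)) × (ℝ × (ℤ → ℝ)) |
        |q.1.1 - q.2.1| ≤ 3 * d ∧ 1 / (2 * (L : ℝ) + 1) ≤ q.2.2 n ^ 2}} := by
    ext V
    simp only [Set.mem_ofPred_eq, Set.mem_iUnion]
    constructor
    · rintro ⟨E, ψ, E', ψ', h1, h2, h3⟩
      obtain ⟨R, hR⟩ := exists_nat_ge (max |E| |E'|)
      exact ⟨R, E, ψ, E', ψ', (le_max_left _ _).trans hR, (le_max_right _ _).trans hR, h1, h2, h3⟩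
    · rintro ⟨R, E, ψ, E', ψ', -, -, h1, h2, h3⟩
      exact ⟨E, ψ, E', ψ', h1, h2, h3⟩
  rw [this]
  refine MeasurableSet.iUnion fun R => (taskClosed2 _ _ _ _ _ _ ?_).measurableSet
  have k1 : IsClosed {q : (ℝ × (ℤ → ℝ)) × (ℝ × (ℤ → ℝ)) | |q.1.1 - q.2.1| ≤ 3 * d} :=
    isClosed_le (by fun_prop) continuous_const
  have k2 : IsClosed {q : (ℝ × (ℤ → ℝ)) × (ℝ × (ℤ → ℝ)) |
      1 / (2 * (L : ℝ) + 1) ≤ q.2.2 n ^ 2} :=
    isClosed_le continuous_const (by fun_prop)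
  exact k1.inter k2

theorem prob_Cl (hCard : TaskCard) (ε d : ℝ) (W : ℤ → ℝ) (L : ℕ) (hε : 0 < ε) (hd : 0 < d)
    (m n : ℤ) (hm1 : -(L : ℤ) < m) (hm2 : m ≤ L) :
    PZ {x | Cl L d m n (fun k => W k + ε * x k)} ≤
      ENNReal.ofReal (3 * (2 * (L : ℝ) + 1) ^ 2 * d / ε) := by
  by_cases hn : m ≤ n ∧ n ≤ L
  swap
  · have : {x : ℤ → ℝ | Cl L d m n (fun k => W k + ε * x k)} = ∅ := by
      ext x
      simp only [Set.mem_ofPred_eq, Set.mem_empty_iff_false, iff_false]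
      rintro ⟨lam, φ, lam', φ', -, h2, -, h4⟩
      rw [h2.1 n (by omega)] at h4
      have : (0 : ℝ) < 1 / (2 * (L : ℝ) + 1) := by positivity
      norm_num at h4
      linarith [h4, this]
    rw [this, measure_empty]
    exact bot_le
  set κ : ℝ := 1 / (2 * (L : ℝ) + 1) with hκ
  have hκ0 : 0 < κ := by positivity
  set A : (ℤ → ℝ) → Set ℝ := fun x => {E | ∃ lam φ,
    IsEig (fun k => W k + ε * x k) (-(L : ℤ)) (m - 1) lam φ ∧ |lam - E| ≤ 3 * d} with hA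
  have h2 := taskSAP W ε κ m L n A {x | Cl L d m n (fun k => W k + ε * x k)} hε hκ0
    ((measurable_aff W ε) (measurableSet_Cl L d m n)) ?_ ?_
  · refine h2.trans ?_
    have hvol : ∀ x, volume (A x) ≤ ENNReal.ofReal ((2 * (L : ℝ) + 1) * (6 * d)) := by
      intro x
      obtain ⟨F, hF1, hF2⟩ := hCard (fun k => W k + ε * x k) (-(L : ℤ)) (m - 1) (by omega)
      have hsub : A x ⊆ ⋃ lam ∈ F, Set.Icc (lam - 3 * d) (lam + 3 * d) := by
        rintro E ⟨lam, φ, h3, h4⟩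
        rw [Set.mem_iUnion₂]
        refine ⟨lam, hF2 lam φ h3, ?_⟩
        rw [abs_le] at h4
        constructor <;> linarith [h4.1, h4.2]
      refine (measure_mono hsub).trans ((measure_biUnion_finset_le _ _).trans ?_)
      simp only [Real.volume_Icc]
      have h5 : ((F.card : ℕ) : ℝ≥0∞) = ENNReal.ofReal (F.card : ℝ) := by
        rw [ENNReal.ofReal_natCast]
      have h6 : ∀ lam : ℝ, lam + 3 * d - (lam - 3 * d) = 6 * d := fun lam => by ring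
      have h7 : (F.card : ℝ) ≤ 2 * (L : ℝ) + 1 := by
        have : (F.card : ℤ) ≤ 2 * L + 1 := by omega
        exact_mod_cast this
      simp only [h6]
      rw [Finset.sum_const, nsmul_eq_mul, h5, ← ENNReal.ofReal_mul (by positivity)]
      exact ENNReal.ofReal_le_ofReal (by gcongr)
    refine (lintegral_mono fun x => mul_le_mul_right (hvol x) _).trans ?_
    rw [lintegral_const, measure_univ, mul_one, ← ENNReal.ofReal_mul (by positivity)]
    refine ENNReal.ofReal_le_ofReal (le_of_eq ?_)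
    rw [hκ]
    field_simp
    ring
  · intro x s
    rw [hA]
    simp only
    ext E
    simp only [Set.mem_ofPred_eq]
    constructor
    · rintro ⟨lam, φ, h3, h4⟩
      refine ⟨lam, φ, isEig_congr (fun k _ hk => ?_) h3, h4⟩
      rw [Function.update_of_ne (by omega)]
    · rintro ⟨lam, φ, h3, h4⟩
      refine ⟨lam, φ, isEig_congr (fun k _ hk => ?_) h3, h4⟩
      rw [Function.update_of_ne (by omega)]
  · rintro x ⟨lam, φ, lam', φ', h3, h4, h5, h6⟩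
    exact ⟨lam', ⟨lam, φ, h3, h5⟩, φ', h4, h6⟩

theorem taskG2 (hSplit : TaskSplit) (hCard : TaskCard) : TaskG2 := by
  refine ⟨48, by norm_num, ?_⟩
  intro ε d W L hε hd
  have hsub : {x : ℤ → ℝ | Bad2 L d (fun n => W n + ε * x n)} ⊆
      ⋃ m ∈ Finset.Icc (-(L : ℤ) + 1) L, ⋃ n ∈ Finset.Icc (-(L : ℤ)) L,
        {x | Cl L d m n (fun k => W k + ε * x k)} := by
    rintro x ⟨E, ψ, E', ψ', h1, h2, h3, h4⟩
    obtain ⟨m, hm1, hm2, lam, φ, lam', φ', k1, k2, k3⟩ :=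
      hSplit _ _ _ E E' d ψ ψ' (by omega) h1 h2 h3 h4
    -- a site with weight
    have hex : ∃ n ∈ Finset.Icc m (L : ℤ), 1 / (2 * (L : ℝ) + 1) ≤ φ' n ^ 2 := by
      by_contra hcon
      push Not at hcon
      have h5 : nsq m L φ' ≤ ∑ n ∈ Finset.Icc m (L : ℤ), 1 / (2 * (L : ℝ) + 1) :=
        Finset.sum_le_sum fun n hn => (hcon n hn).le
      have hne : (Finset.Icc m (L : ℤ)).Nonempty := Finset.nonempty_Icc.2 hm2
      have h6 : nsq m L φ' < ∑ n ∈ Finset.Icc m (L : ℤ), 1 / (2 * (L : ℝ) + 1) :=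
        Finset.sum_lt_sum_of_nonempty hne hcon
      rw [k2.2.1, Finset.sum_const, nsmul_eq_mul, Int.card_Icc] at h6
      have h7 : (((L : ℤ) + 1 - m).toNat : ℝ) ≤ 2 * (L : ℝ) + 1 := by
        have : ((L : ℤ) + 1 - m).toNat ≤ 2 * L + 1 := by omega
        exact_mod_cast this
      have h8 : (((L : ℤ) + 1 - m).toNat : ℝ) * (1 / (2 * (L : ℝ) + 1)) ≤ 1 := by
        rw [mul_one_div, div_le_one (by positivity)]
        exact h7
      linarith
    obtain ⟨n, hn, hn2⟩ := hex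
    rw [Finset.mem_Icc] at hn
    rw [Set.mem_iUnion₂]
    refine ⟨m, by rw [Finset.mem_Icc]; omega, ?_⟩
    rw [Set.mem_iUnion₂]
    exact ⟨n, by rw [Finset.mem_Icc]; omega, lam, φ, lam', φ', k1, k2, k3, hn2⟩
  refine (measure_mono hsub).trans ((measure_biUnion_finset_le _ _).trans ?_)
  have h1 : ∀ m ∈ Finset.Icc (-(L : ℤ) + 1) L,
      PZ (⋃ n ∈ Finset.Icc (-(L : ℤ)) L, {x | Cl L d m n (fun k => W k + ε * x k)}) ≤
        ENNReal.ofReal ((2 * (L : ℝ) + 1) * (3 * (2 * (L : ℝ) + 1) ^ 2 * d / ε)) := by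
    intro m hm
    rw [Finset.mem_Icc] at hm
    refine (measure_biUnion_finset_le _ _).trans ?_
    refine (Finset.sum_le_sum fun n _ => prob_Cl hCard ε d W L hε hd m n (by omega) hm.2).trans ?_
    rw [Finset.sum_const, Int.card_Icc, nsmul_eq_mul, ← ENNReal.ofReal_natCast,
      ← ENNReal.ofReal_mul (by positivity)]
    refine ENNReal.ofReal_le_ofReal (le_of_eq ?_)
    have : ((L : ℤ) + 1 - -(L : ℤ)).toNat = 2 * L + 1 := by omega
    rw [this]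
    push_cast
    ring
  refine (Finset.sum_le_sum h1).trans ?_
  rw [Finset.sum_const, Int.card_Icc, nsmul_eq_mul, ← ENNReal.ofReal_natCast,
    ← ENNReal.ofReal_mul (by positivity)]
  refine ENNReal.ofReal_le_ofReal ?_
  have h9 : ((L : ℤ) + 1 - (-(L : ℤ) + 1)).toNat = 2 * L := by omega
  rw [h9]
  push_cast
  have hL : (0 : ℝ) ≤ L := Nat.cast_nonneg L
  calc 2 * (L : ℝ) * ((2 * (L : ℝ) + 1) * (3 * (2 * (L : ℝ) + 1) ^ 2 * d / ε)) =
        3 * ((2 * (L : ℝ)) * (2 * (L : ℝ) + 1) ^ 3) * d / ε := by ring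
    _ ≤ 3 * ((2 * ((L : ℝ) + 1)) * (2 * ((L : ℝ) + 1)) ^ 3) * d / ε := by
        gcongr <;> linarith
    _ = 48 * ((L : ℝ) + 1) ^ 4 * d / ε := by ring

end Pool.Agent.TH796.PP
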