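import Pool.Agent.TH796.PP.Contr
import Pool.Agent.H853R3.PP.TaskResample

/-!
# TaskJ: the first negative moment of the length of a solution decays exponentially
-/

set_option autoImplicit false

open scoped BigOperators ENNReal
open MeasureTheory

namespace Pool.Agent.TH796.PP

open Pool.Agent.H695R3.PP

/-- the uniform law is symmetric -/
theorem U_neg : U.map (fun s => -s) = U := by
  ext S hS
  rw [Measure.map_apply measurable_neg hS]
  unfold U
  rw [Measure.smul_apply, Measure.smul_apply, Measure.restrict_apply (measurable_neg hS),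
    Measure.restrict_apply hS, smul_eq_mul, smul_eq_mul]
  have h1 : (fun s : ℝ => -s) ⁻¹' S ∩ Set.Icc (-1) 1 = -(S ∩ Set.Icc (-1) 1) := by
    ext t
    simp only [Set.mem_inter_iff, Set.mem_preimage, Set.mem_Icc, Set.mem_neg]
    refine and_congr_right fun _ => ⟨fun h => ⟨by linarith [h.2], by linarith [h.1]⟩,
      fun h => ⟨by linarith [h.2], by linarith [h.1]⟩⟩
  rw [h1, Measure.measure_neg]

theorem U_ac {S : Set ℝ} (hS : volume S = 0) : U S = 0 := by
  unfold U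
  rw [Measure.smul_apply]
  have : (volume.restrict (Set.Icc (-1 : ℝ) 1)) S = 0 :=
    le_antisymm ((Measure.restrict_apply_le _ _).trans hS.le) bot_le
  rw [this, smul_zero]

/-- `n` steps remaining, vector `v` -/
noncomputable def GG (ε : ℝ) (c : ℕ → ℝ) : ℕ → ℝ × ℝ → ℝ≥0∞
  | 0 => fun v => ENNReal.ofReal (1 / Real.sqrt (v.1 ^ 2 + v.2 ^ 2))
  | (n + 1) => fun v => ∫⁻ s, GG ε (fun i => c (i + 1)) n ((c 0 - ε * s) * v.1 - v.2, v.1) ∂U

theorem measurable_GG (ε : ℝ) (n : ℕ) : ∀ c : ℕ → ℝ, Measurable (GG ε c n) := by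
  induction n with
  | zero =>
    intro c
    unfold GG
    fun_prop
  | succ n ih =>
    intro c
    unfold GG
    have h := ih (fun i => c (i + 1))
    refine Measurable.lintegral_prod_right' (f := fun p : (ℝ × ℝ) × ℝ =>
      GG ε (fun i => c (i + 1)) n ((c 0 - ε * p.2) * p.1.1 - p.1.2, p.1.1)) ?_
    exact h.comp (by fun_prop)

theorem GG_homog (ε : ℝ) (n : ℕ) : ∀ (c : ℕ → ℝ) (l : ℝ) (v : ℝ × ℝ), l ≠ 0 →
    GG ε c n (l * v.1, l * v.2) = ENNReal.ofReal |l|⁻¹ * GG ε c n v := by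
  induction n with
  | zero =>
    intro c l v hl
    unfold GG
    rw [← ENNReal.ofReal_mul (by positivity)]
    congr 1
    have : (l * v.1) ^ 2 + (l * v.2) ^ 2 = l ^ 2 * (v.1 ^ 2 + v.2 ^ 2) := by ring
    simp only
    rw [this, Real.sqrt_mul (sq_nonneg l), Real.sqrt_sq_eq_abs, one_div, mul_inv, one_div]
  | succ n ih =>
    intro c l v hl
    unfold GG
    rw [← lintegral_const_mul]
    · refine lintegral_congr fun s => ?_
      rw [← ih (fun i => c (i + 1)) l _ hl]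
      congr 1
      ext
      · simp only; ring
      · rfl
    · exact (measurable_GG ε n _).comp (by fun_prop)

/-- the function of the ratio -/
noncomputable def gg (ε : ℝ) (c : ℕ → ℝ) (n : ℕ) (x : ℝ) : ℝ≥0∞ := GG ε c n (x, 1)

theorem measurable_gg (ε : ℝ) (n : ℕ) (c : ℕ → ℝ) : Measurable (gg ε c n) :=
  (measurable_GG ε n c).comp (by fun_prop)

theorem avg_eq (ε : ℝ) (g : ℝ → ℝ≥0∞) (hg : Measurable g) (x : ℝ) :
    ∫⁻ s, g (x - ε * s) ∂U = avg ε g x := by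
  unfold avg
  have h := lintegral_map (μ := U) (f := fun s : ℝ => g (x - ε * s)) (g := fun s : ℝ => -s)
    (by fun_prop) (by fun_prop)
  rw [U_neg] at h
  rw [h]
  refine lintegral_congr fun s => ?_
  congr 1
  ring

theorem gg_succ (ε : ℝ) (c : ℕ → ℝ) (n : ℕ) (x : ℝ) (hx : x ≠ 0) :
    gg ε c (n + 1) x = UR (c 0) (avg ε (gg ε (fun i => c (i + 1)) n)) x := by
  unfold UR
  rw [← avg_eq ε _ (measurable_gg ε n _), ← lintegral_const_mul]
  · unfold gg
    rw [GG]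
    refine lintegral_congr fun s => ?_
    rw [← GG_homog ε n (fun i => c (i + 1)) x _ hx]
    congr 1
    ext
    · simp only; field_simp; ring
    · simp only; ring
  · exact (measurable_gg ε n _).comp (by fun_prop)

theorem ae_ne_zero : ∀ᵐ x : ℝ, x ≠ 0 := by
  rw [ae_iff]
  have : {a : ℝ | ¬ a ≠ 0} = {0} := by ext; simp
  rw [this]
  exact Real.volume_singleton

theorem nsqL_congr (g h : ℝ → ℝ≥0∞) (hgh : ∀ x, x ≠ 0 → g x = h x) : nsqL g = nsqL h := by
  unfold nsqL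
  refine lintegral_congr_ae ?_
  filter_upwards [ae_ne_zero] with x hx
  rw [hgh x hx]

theorem avg_congr (ε : ℝ) (hε : 0 < ε) (g h : ℝ → ℝ≥0∞) (hgh : ∀ x, x ≠ 0 → g x = h x) :
    avg ε g = avg ε h := by
  funext x
  unfold avg
  refine lintegral_congr_ae ?_
  have h0 : U {-(x / ε)} = 0 := U_ac Real.volume_singleton
  rw [Filter.EventuallyEq, ae_iff]
  refine measure_mono_null ?_ h0
  intro s hs
  simp only [Set.mem_setOf_eq, Set.mem_singleton_iff] at hs ⊢
  by_contra h1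
  apply hs
  apply hgh
  intro h2
  apply h1
  field_simp
  linarith

theorem nsqL_gg_succ (hIso : TaskIso) (hAvg : TaskAvg) (ε : ℝ) (hε : 0 < ε) (hε1 : ε ≤ 1)
    (c : ℕ → ℝ) (n : ℕ) : nsqL (gg ε c (n + 1)) ≤ nsqL (gg ε (fun i => c (i + 1)) n) := by
  have hg := measurable_gg ε n (fun i => c (i + 1))
  obtain ⟨h1, h2, -, -⟩ := hAvg ε _ hε hε1 hg
  rw [nsqL_congr _ _ (gg_succ ε c n), (hIso _ _ h1).1]
  exact h2

theorem nsqL_gg_two (hIso : TaskIso) (hAvg : TaskAvg) (k : ℝ) (ε : ℝ) (hε : 0 < ε) (hε1 : ε ≤ 1)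
    (hC : ∀ (c₁ : ℝ) (g : ℝ → ℝ≥0∞), Measurable g →
      nsqL (avg ε (UR c₁ (avg ε g))) ≤ ENNReal.ofReal (1 - k * ε ^ 2) * nsqL g)
    (c : ℕ → ℝ) (n : ℕ) : nsqL (gg ε c (n + 2)) ≤
      ENNReal.ofReal (1 - k * ε ^ 2) * nsqL (gg ε (fun i => c (i + 2)) n) := by
  have hg := measurable_gg ε n (fun i => c (i + 2))
  have hg1 := measurable_gg ε (n + 1) (fun i => c (i + 1))
  obtain ⟨h1, -, -, -⟩ := hAvg ε _ hε hε1 hg1
  rw [nsqL_congr _ _ (gg_succ ε c (n + 1)), (hIso _ _ h1).1,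
    avg_congr ε hε _ _ (gg_succ ε (fun i => c (i + 1)) n)]
  exact hC _ _ hg

theorem nsqL_gg_zero (ε : ℝ) (c : ℕ → ℝ) : nsqL (gg ε c 0) ≤ ENNReal.ofReal 4 := by
  have h1 : ∀ x : ℝ, gg ε c 0 x ^ 2 = ENNReal.ofReal ((1 + x ^ 2)⁻¹) := by
    intro x
    unfold gg GG
    simp only
    rw [← ENNReal.ofReal_pow (by positivity), one_div, inv_pow, Real.sq_sqrt (by positivity)]
    congr 2
    ring
  unfold nsqL
  simp_rw [h1]
  rw [← ofReal_integral_eq_lintegral_ofReal integrable_inv_one_add_sq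
    (Filter.Eventually.of_forall fun x => by positivity), integral_univ_inv_one_add_sq]
  exact ENNReal.ofReal_le_ofReal Real.pi_le_four

theorem nsqL_gg (hIso : TaskIso) (hAvg : TaskAvg) (k : ℝ) (ε : ℝ) (hε : 0 < ε) (hε1 : ε ≤ 1)
    (hk : 0 ≤ 1 - k * ε ^ 2)
    (hC : ∀ (c₁ : ℝ) (g : ℝ → ℝ≥0∞), Measurable g →
      nsqL (avg ε (UR c₁ (avg ε g))) ≤ ENNReal.ofReal (1 - k * ε ^ 2) * nsqL g) (n : ℕ) :
    ∀ c : ℕ → ℝ, nsqL (gg ε c (2 * n)) ≤ ENNReal.ofReal (4 * (1 - k * ε ^ 2) ^ n) ∧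
      nsqL (gg ε c (2 * n + 1)) ≤ ENNReal.ofReal (4 * (1 - k * ε ^ 2) ^ n) := by
  have hodd : ∀ c : ℕ → ℝ, (∀ c', nsqL (gg ε c' (2 * n)) ≤
      ENNReal.ofReal (4 * (1 - k * ε ^ 2) ^ n)) →
      nsqL (gg ε c (2 * n + 1)) ≤ ENNReal.ofReal (4 * (1 - k * ε ^ 2) ^ n) := fun c h =>
    (nsqL_gg_succ hIso hAvg ε hε hε1 c (2 * n)).trans (h _)
  suffices H : ∀ c : ℕ → ℝ, nsqL (gg ε c (2 * n)) ≤ ENNReal.ofReal (4 * (1 - k * ε ^ 2) ^ n) from
    fun c => ⟨H c, hodd c H⟩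
  clear hodd
  induction n with
  | zero => intro c; simpa using nsqL_gg_zero ε c
  | succ n ih =>
    intro c
    have h1 := nsqL_gg_two hIso hAvg k ε hε hε1 hC c (2 * n)
    rw [show 2 * (n + 1) = 2 * n + 2 by ring]
    refine h1.trans ?_
    refine (mul_le_mul_right (ih _) _).trans ?_
    rw [← ENNReal.ofReal_mul hk]
    exact ENNReal.ofReal_le_ofReal (by rw [pow_succ (1 - k * ε ^ 2) n]; linarith)

/-! ### the recursion for the expectation -/

theorem rsol_congr (V V' : ℤ → ℝ) (E : ℝ) (b : ℤ) (j : ℕ)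
    (h : ∀ i : ℕ, i < j → V (b - i) = V' (b - i)) : rsol V E b j = rsol V' E b j := by
  induction j with
  | zero => rfl
  | succ j ih =>
    rw [rsol, rsol, ih (fun i hi => h i (by omega)), h j (by omega)]

theorem measurable_rsol (E : ℝ) (b : ℤ) (j : ℕ) : Measurable fun V : ℤ → ℝ => rsol V E b j := by
  induction j with
  | zero => exact measurable_const
  | succ j ih =>
    unfold rsol
    have h1 : Measurable fun V : ℤ → ℝ => V (b - j) := measurable_pi_apply _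
    exact (((measurable_const.sub h1).mul ih.fst).sub ih.snd).prodMk ih.fst

theorem measurable_aff (W : ℤ → ℝ) (ε : ℝ) :
    Measurable fun x : ℤ → ℝ => fun n => W n + ε * x n := by
  fun_prop

theorem resample_lintegral (m : ℤ) (F : (ℤ → ℝ) → ℝ≥0∞) (hF : Measurable F) :
    ∫⁻ x, F x ∂PZ = ∫⁻ x, ∫⁻ s, F (Function.update x m s) ∂U ∂PZ := by
  have h := Pool.Agent.H853R3.PP.Resample.taskResample ℤ (fun _ => ℝ) (fun _ => U) m
  have hm : Measurable (fun p : (ℤ → ℝ) × ℝ => Function.update p.1 m p.2) :=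
    Pool.Agent.H853R3.PP.Resample.measurable_upd (X := fun _ : ℤ => ℝ) m
  unfold PZ
  conv_lhs => rw [← h]
  rw [lintegral_map hF hm]
  exact lintegral_prod (fun p : (ℤ → ℝ) × ℝ => F (Function.update p.1 m p.2))
    (hF.comp hm).aemeasurable

theorem step_lintegral (ε E : ℝ) (W : ℤ → ℝ) (b : ℤ) (n : ℕ) : ∀ j : ℕ,
    ∫⁻ x, GG ε (fun i => E - W (b - (j + i : ℕ))) n (rsol (fun n => W n + ε * x n) E b j) ∂PZ =
      ∫⁻ x, ENNReal.ofReal (1 / rlen (fun n => W n + ε * x n) E b (j + n)) ∂PZ := by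
  induction n with
  | zero =>
    intro j
    rfl
  | succ n ih =>
    intro j
    have h1 := ih (j + 1)
    have e1 : (j + 1) + n = j + (n + 1) := by ring
    rw [e1] at h1
    rw [← h1]
    have hme : Measurable fun x : ℤ → ℝ => GG ε (fun i => E - W (b - (j + 1 + i : ℕ))) n
        (rsol (fun n => W n + ε * x n) E b (j + 1)) :=
      (measurable_GG ε n _).comp ((measurable_rsol E b (j + 1)).comp (measurable_aff W ε))
    rw [resample_lintegral (b - j) _ hme]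
    · refine lintegral_congr fun x => ?_
      rw [GG]
      refine lintegral_congr fun s => ?_
      have e2 : (fun i => E - W (b - (j + 1 + i : ℕ))) = (fun i : ℕ => (fun i : ℕ => E - W (b - (j + i : ℕ))) (i + 1)) := by
        funext i
        simp only
        congr 3
        push_cast
        ring
      rw [e2]
      congr 1
      rw [rsol]
      have e3 : rsol (fun n => W n + ε * Function.update x (b - (j : ℤ)) s n) E b j =
          rsol (fun n => W n + ε * x n) E b j := by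
        apply rsol_congr
        intro i hi
        rw [Function.update_of_ne (by omega)]
      rw [e3]
      simp only [Function.update_self]
      ext
      · simp only [add_zero]; ring
      · rfl

theorem taskJ (hIso : TaskIso) (hAvg : TaskAvg) (hContr : TaskContr) : TaskJ := by
  obtain ⟨k, hk0, hk1, hC⟩ := hContr
  refine ⟨k / 4, 4, by positivity, by linarith, by norm_num, ?_⟩
  intro ε E W b L hε hε1
  have hε2 : ε ^ 2 ≤ 1 := pow_le_one₀ hε.le hε1
  have hk : 0 ≤ 1 - k * ε ^ 2 := by nlinarith [sq_nonneg ε]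
  have hk' : k / 4 * ε ^ 2 ≤ 1 / 8 := by nlinarith [sq_nonneg ε]
  have hb0 : 0 ≤ 1 - k / 4 * ε ^ 2 := by linarith
  have h1ε : 1 ≤ 1 / ε := by rw [le_div_iff₀ hε]; linarith
  have h0 := step_lintegral ε E W b L 0
  rw [zero_add] at h0
  rw [← h0]
  have h2 : ∀ x : ℤ → ℝ, GG ε (fun i => E - W (b - (0 + i : ℕ))) L
      (rsol (fun n => W n + ε * x n) E b 0) = GG ε (fun i => E - W (b - (0 + i : ℕ))) L (1, 0) :=
    fun x => rfl
  simp_rw [h2]
  rw [lintegral_const, measure_univ, mul_one]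
  rcases Nat.eq_zero_or_pos L with hL | hL
  · subst hL
    unfold GG
    simp only [one_pow, ne_eq, OfNat.ofNat_ne_zero, not_false_eq_true, zero_pow, add_zero,
      Real.sqrt_one, pow_zero, mul_one]
    refine ENNReal.ofReal_le_ofReal ?_
    have : (4 : ℝ) / ε = 4 * (1 / ε) := by ring
    rw [this]; linarith
  obtain ⟨m, rfl⟩ : ∃ m, L = m + 1 := ⟨L - 1, by omega⟩
  set c : ℕ → ℝ := fun i => E - W (b - (0 + i : ℕ)) with hc
  -- one step gives the function `gg`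
  have h3 : GG ε c (m + 1) (1, 0) = avg ε (gg ε (fun i => c (i + 1)) m) (c 0) := by
    rw [← avg_eq ε _ (measurable_gg ε m _), GG]
    refine lintegral_congr fun s => ?_
    unfold gg
    congr 1
    ext
    · simp
    · rfl
  rw [h3]
  obtain ⟨-, -, -, h4⟩ := hAvg ε _ hε hε1 (measurable_gg ε m (fun i => c (i + 1)))
  refine (h4 (c 0)).trans ?_
  -- the norm
  have h5 : nsqL (gg ε (fun i => c (i + 1)) m) ≤ ENNReal.ofReal (4 * (1 - k * ε ^ 2) ^ (m / 2)) := by
    have h6 := nsqL_gg hIso hAvg k ε hε hε1 hk (fun c₁ g hg => hC ε c₁ g hε hε1 hg) (m / 2)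
      (fun i => c (i + 1))
    rcases Nat.even_or_odd' m with ⟨q, hq | hq⟩
    · have : 2 * (m / 2) = m := by omega
      rw [this] at h6
      exact h6.1
    · have : 2 * (m / 2) + 1 = m := by omega
      rw [this] at h6
      exact h6.2
  have h7 : (1 - k * ε ^ 2) ≤ (1 - k / 4 * ε ^ 2) ^ 4 := by
    have := one_add_mul_le_pow (a := -(k / 4 * ε ^ 2)) (by linarith) 4
    have e : (1 : ℝ) + -(k / 4 * ε ^ 2) = 1 - k / 4 * ε ^ 2 := by ring
    rw [e] at this
    push_cast at this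
    linarith
  have h8 : (1 - k * ε ^ 2) ^ (m / 2) ≤ ((1 - k / 4 * ε ^ 2) ^ (2 * (m / 2))) ^ 2 := by
    rw [← pow_mul, mul_comm (2 * (m / 2)) 2, ← mul_assoc, show 2 * 2 = 4 by norm_num, pow_mul]
    exact pow_le_pow_left₀ hk h7 _
  have h9 : (1 - k / 4 * ε ^ 2) ^ (2 * (m / 2)) ≤ 2 * (1 - k / 4 * ε ^ 2) ^ (m + 1) := by
    have e2 : m + 1 ≤ 2 * (m / 2) + 2 := by omega
    have h10 : (1 - k / 4 * ε ^ 2) ^ (2 * (m / 2) + 2) ≤ (1 - k / 4 * ε ^ 2) ^ (m + 1) :=
      pow_le_pow_of_le_one hb0 (by linarith [mul_nonneg (by positivity : (0 : ℝ) ≤ k / 4) (sq_nonneg ε)]) e2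
    have h11 : (1 / 2 : ℝ) ≤ (1 - k / 4 * ε ^ 2) ^ 2 := by nlinarith
    have h12 : 0 ≤ (1 - k / 4 * ε ^ 2) ^ (2 * (m / 2)) := by positivity
    rw [pow_add] at h10
    nlinarith
  have h13 : nsqL (gg ε (fun i => c (i + 1)) m) ≤
      ENNReal.ofReal ((4 * (1 - k / 4 * ε ^ 2) ^ (m + 1)) ^ 2) := by
    refine h5.trans (ENNReal.ofReal_le_ofReal ?_)
    have h14 : 0 ≤ (1 - k / 4 * ε ^ 2) ^ (2 * (m / 2)) := by positivity
    calc 4 * (1 - k * ε ^ 2) ^ (m / 2) ≤ 4 * ((1 - k / 4 * ε ^ 2) ^ (2 * (m / 2))) ^ 2 := by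
          linarith
      _ ≤ 4 * (2 * (1 - k / 4 * ε ^ 2) ^ (m + 1)) ^ 2 := by gcongr
      _ = (4 * (1 - k / 4 * ε ^ 2) ^ (m + 1)) ^ 2 := by ring
  have h15 : nsqL (gg ε (fun i => c (i + 1)) m) ^ (1 / 2 : ℝ) ≤
      ENNReal.ofReal (4 * (1 - k / 4 * ε ^ 2) ^ (m + 1)) := by
    have hp : 0 ≤ 4 * (1 - k / 4 * ε ^ 2) ^ (m + 1) := by positivity
    refine (ENNReal.rpow_le_rpow h13 (by norm_num)).trans ?_
    rw [ENNReal.ofReal_rpow_of_nonneg (by positivity) (by norm_num), ← Real.sqrt_eq_rpow,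
      Real.sqrt_sq hp]
  refine (mul_le_mul_right h15 _).trans ?_
  rw [← ENNReal.ofReal_mul (by positivity)]
  refine ENNReal.ofReal_le_ofReal ?_
  have h16 : 1 / Real.sqrt ε ≤ 1 / ε := by
    refine one_div_le_one_div_of_le hε ?_
    rw [Real.le_sqrt hε.le hε.le]
    nlinarith
  have hp : 0 ≤ 4 * (1 - k / 4 * ε ^ 2) ^ (m + 1) := by positivity
  calc 1 / Real.sqrt ε * (4 * (1 - k / 4 * ε ^ 2) ^ (m + 1)) ≤
        1 / ε * (4 * (1 - k / 4 * ε ^ 2) ^ (m + 1)) := mul_le_mul_of_nonneg_right h16 hp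
    _ = 4 / ε * (1 - k / 4 * ε ^ 2) ^ (m + 1) := by ring

end Pool.Agent.TH796.PP
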