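import Pool.Agent.TH796.PP.FE

/-!
# TaskSA, TaskSAP: spectral averaging
-/

set_option autoImplicit false

open scoped BigOperators ENNReal
open MeasureTheory

namespace Pool.Agent.TH796.PP

open Pool.Agent.H695R3.PP

/-- vanishes outside `[a, b]` -/
def Supp (a b : ℤ) (f : ℤ → ℝ) : Prop := ∀ n, n < a ∨ b < n → f n = 0

theorem shift_sum (a b : ℤ) (f g : ℤ → ℝ) (hf : Supp a b f) (hg : Supp a b g) :
    ∑ n ∈ Finset.Icc a b, f (n + 1) * g n = ∑ n ∈ Finset.Icc a b, f n * g (n - 1) := by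
  have h1 : ∑ n ∈ Finset.Icc a b, f (n + 1) * g n =
      ∑ n ∈ Finset.Icc (a + 1) (b + 1), f n * g (n - 1) := by
    rw [← Finset.map_add_right_Icc, Finset.sum_map]
    refine Finset.sum_congr rfl fun n _ => ?_
    simp
  have h2 : ∑ n ∈ Finset.Icc (a + 1) (b + 1), f n * g (n - 1) =
      ∑ n ∈ Finset.Icc a (b + 1), f n * g (n - 1) := by
    refine Finset.sum_subset ?_ ?_
    · intro n hn; rw [Finset.mem_Icc] at hn ⊢; omega
    · intro n hn hn'
      rw [Finset.mem_Icc] at hn hn'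
      have : n = a := by omega
      rw [hg (n - 1) (by omega), mul_zero]
  have h3 : ∑ n ∈ Finset.Icc a b, f n * g (n - 1) =
      ∑ n ∈ Finset.Icc a (b + 1), f n * g (n - 1) := by
    refine Finset.sum_subset ?_ ?_
    · intro n hn; rw [Finset.mem_Icc] at hn ⊢; omega
    · intro n hn hn'
      rw [Finset.mem_Icc] at hn hn'
      rw [hf n (by omega), zero_mul]
  rw [h1, h2, h3]

theorem sym_sum (a b : ℤ) (f g : ℤ → ℝ) (hf : Supp a b f) (hg : Supp a b g) :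
    ∑ n ∈ Finset.Icc a b, (f (n + 1) + f (n - 1)) * g n =
      ∑ n ∈ Finset.Icc a b, f n * (g (n + 1) + g (n - 1)) := by
  have h1 := shift_sum a b f g hf hg
  have h2 := shift_sum a b g f hg hf
  simp only [add_mul, mul_add, Finset.sum_add_distrib]
  rw [h1]
  have h3 : ∑ n ∈ Finset.Icc a b, f (n - 1) * g n = ∑ n ∈ Finset.Icc a b, g n * f (n - 1) :=
    Finset.sum_congr rfl fun n _ => mul_comm _ _
  have h4 : ∑ n ∈ Finset.Icc a b, f n * g (n + 1) = ∑ n ∈ Finset.Icc a b, g (n + 1) * f n :=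
    Finset.sum_congr rfl fun n _ => mul_comm _ _
  rw [h3, h4, h2]
  ring

/-- Green's identity for two eigenvectors with different potentials. -/
theorem green (V₁ V₂ : ℤ → ℝ) (a b : ℤ) (E₁ E₂ : ℝ) (ψ₁ ψ₂ : ℤ → ℝ) (h1 : IsEig V₁ a b E₁ ψ₁)
    (h2 : IsEig V₂ a b E₂ ψ₂) :
    ∑ n ∈ Finset.Icc a b, (V₂ n - V₁ n) * (ψ₁ n * ψ₂ n) =
      (E₂ - E₁) * ∑ n ∈ Finset.Icc a b, ψ₁ n * ψ₂ n := by
  have h := sym_sum a b ψ₁ ψ₂ h1.1 h2.1
  have e1 : ∑ n ∈ Finset.Icc a b, (ψ₁ (n + 1) + ψ₁ (n - 1)) * ψ₂ n =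
      ∑ n ∈ Finset.Icc a b, (E₁ - V₁ n) * (ψ₁ n * ψ₂ n) := by
    refine Finset.sum_congr rfl fun n hn => ?_
    rw [Finset.mem_Icc] at hn
    have := h1.2.2 n hn.1 hn.2
    linear_combination ψ₂ n * this
  have e2 : ∑ n ∈ Finset.Icc a b, ψ₁ n * (ψ₂ (n + 1) + ψ₂ (n - 1)) =
      ∑ n ∈ Finset.Icc a b, (E₂ - V₂ n) * (ψ₁ n * ψ₂ n) := by
    refine Finset.sum_congr rfl fun n hn => ?_
    rw [Finset.mem_Icc] at hn
    have := h2.2.2 n hn.1 hn.2
    linear_combination ψ₁ n * this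
  rw [e1, e2] at h
  rw [Finset.mul_sum]
  have h' : ∑ n ∈ Finset.Icc a b, ((E₂ - V₂ n) * (ψ₁ n * ψ₂ n) - (E₁ - V₁ n) * (ψ₁ n * ψ₂ n)) = 0 := by
    rw [Finset.sum_sub_distrib, h, sub_self]
  rw [← sub_eq_zero, ← Finset.sum_sub_distrib, ← neg_eq_zero, ← Finset.sum_neg_distrib, ← h']
  exact Finset.sum_congr rfl fun n _ => by ring

theorem cs_box (a b : ℤ) (f g : ℤ → ℝ) (hf : nsq a b f = 1) (hg : nsq a b g = 1) :
    |∑ n ∈ Finset.Icc a b, f n * g n| ≤ 1 := by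
  have h := Finset.sum_mul_sq_le_sq_mul_sq (Finset.Icc a b) f g
  unfold nsq at hf hg
  rw [hf, hg, mul_one] at h
  rw [← sq_abs] at h
  have h0 := abs_nonneg (∑ n ∈ Finset.Icc a b, f n * g n)
  nlinarith

theorem taskSA : TaskSA := by
  intro V a b m A κ hκ
  set T : Set ℝ := {t : ℝ | ∃ E ∈ A, ∃ ψ, IsEig (Function.update V m t) a b E ψ ∧ κ ≤ ψ m ^ 2}
    with hT
  classical
  -- choose the energies
  have hch : ∀ t : ℝ, ∃ E : ℝ, t ∈ T → E ∈ A ∧ ∃ ψ, IsEig (Function.update V m t) a b E ψ ∧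
      κ ≤ ψ m ^ 2 := by
    intro t
    by_cases ht : t ∈ T
    · obtain ⟨E, hE, ψ, h1, h2⟩ := ht
      exact ⟨E, fun _ => ⟨hE, ψ, h1, h2⟩⟩
    · exact ⟨0, fun h => absurd h ht⟩
  choose e he using hch
  have key : ∀ t₁ ∈ T, ∀ t₂ ∈ T, |t₁ - t₂| ≤ 1 / κ * |e t₁ - e t₂| := by
    intro t₁ ht₁ t₂ ht₂
    obtain ⟨-, ψ₁, h1, k1⟩ := he t₁ ht₁
    obtain ⟨-, ψ₂, h2, k2⟩ := he t₂ ht₂
    have hm : m ∈ Finset.Icc a b := by
      rw [Finset.mem_Icc]
      by_contra hcon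
      have : ψ₁ m = 0 := h1.1 m (by omega)
      rw [this] at k1
      norm_num at k1
      linarith
    have hg := green _ _ a b _ _ _ _ h1 h2
    have hs : ∑ n ∈ Finset.Icc a b, (Function.update V m t₂ n - Function.update V m t₁ n) *
        (ψ₁ n * ψ₂ n) = (t₂ - t₁) * (ψ₁ m * ψ₂ m) := by
      rw [Finset.sum_eq_single_of_mem m hm]
      · simp
      · intro n _ hn
        rw [Function.update_of_ne hn, Function.update_of_ne hn, sub_self, zero_mul]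
    rw [hs] at hg
    have hc := cs_box a b ψ₁ ψ₂ h1.2.1 h2.2.1
    have hprod : κ ≤ |ψ₁ m * ψ₂ m| := by
      have h3 : κ ^ 2 ≤ |ψ₁ m * ψ₂ m| ^ 2 := by
        rw [sq_abs, mul_pow]
        calc κ ^ 2 = κ * κ := by ring
          _ ≤ ψ₁ m ^ 2 * ψ₂ m ^ 2 := mul_le_mul k1 k2 hκ.le (sq_nonneg _)
      exact (pow_le_pow_iff_left₀ hκ.le (abs_nonneg _) two_ne_zero).1 h3
    have h4 : |t₂ - t₁| * |ψ₁ m * ψ₂ m| ≤ |e t₂ - e t₁| := by
      rw [← abs_mul, hg, abs_mul]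
      calc |e t₂ - e t₁| * |∑ n ∈ Finset.Icc a b, ψ₁ n * ψ₂ n| ≤ |e t₂ - e t₁| * 1 := by gcongr
        _ = _ := mul_one _
    have h5 : |t₂ - t₁| * κ ≤ |e t₂ - e t₁| :=
      (mul_le_mul_of_nonneg_left hprod (abs_nonneg _)).trans h4
    rw [abs_sub_comm t₁, abs_sub_comm (e t₁), one_div, inv_mul_eq_div, le_div_iff₀ hκ]
    exact h5
  -- `T` is the image of `e '' T` under a Lipschitz map
  have hinj : Set.InjOn e T := by
    intro t₁ ht₁ t₂ ht₂ h
    have := key t₁ ht₁ t₂ ht₂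
    rw [h, sub_self, abs_zero, mul_zero] at this
    exact sub_eq_zero.1 (abs_eq_zero.1 (le_antisymm this (abs_nonneg _)))
  set g : ℝ → ℝ := Function.invFunOn e T with hg
  have hgl : ∀ t ∈ T, g (e t) = t := fun t ht => hinj.leftInvOn_invFunOn ht
  have hlip : LipschitzOnWith (Real.toNNReal (1 / κ)) g (e '' T) := by
    refine LipschitzOnWith.of_dist_le_mul ?_
    rintro _ ⟨t₁, ht₁, rfl⟩ _ ⟨t₂, ht₂, rfl⟩
    rw [hgl t₁ ht₁, hgl t₂ ht₂, Real.dist_eq, Real.dist_eq, Real.coe_toNNReal _ (by positivity)]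
    exact key t₁ ht₁ t₂ ht₂
  have himg : g '' (e '' T) = T := by
    ext t
    constructor
    · rintro ⟨_, ⟨t', ht', rfl⟩, rfl⟩
      rw [hgl t' ht']
      exact ht'
    · intro ht
      exact ⟨e t, ⟨t, ht, rfl⟩, hgl t ht⟩
  have h6 := hlip.hausdorffMeasure_image_le (d := 1) zero_le_one
  rw [himg, hausdorffMeasure_real, ENNReal.rpow_one] at h6
  refine h6.trans ?_
  rw [show ((Real.toNNReal (1 / κ) : NNReal) : ℝ≥0∞) = ENNReal.ofReal (1 / κ) from rfl]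
  refine mul_le_mul_right (measure_mono ?_) _
  rintro _ ⟨t, ht, rfl⟩
  exact (he t ht).1

theorem U_scale (ε w : ℝ) (hε : 0 < ε) (T : Set ℝ) :
    U {s | w + ε * s ∈ T} ≤ ENNReal.ofReal (1 / (2 * ε)) * volume T := by
  refine (U_le _).trans ?_
  have h1 : {s : ℝ | w + ε * s ∈ T} = (fun s => ε * s) ⁻¹' ((fun s => w + s) ⁻¹' T) := rfl
  rw [h1, Real.volume_preimage_mul_left hε.ne', measure_preimage_add, ← mul_assoc,
    ← ENNReal.ofReal_mul (by norm_num), abs_of_pos (inv_pos.2 hε)]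
  refine mul_le_mul_left (ENNReal.ofReal_le_ofReal ?_) _
  rw [one_div, one_div, mul_inv]

theorem taskSAP : TaskSAP := by
  intro W ε κ a b m A B hε hκ hB hA hh
  rw [PZ_resample m B hB]
  refine lintegral_mono fun x => ?_
  have h1 : {s | Function.update x m s ∈ B} ⊆ {s | W m + ε * s ∈
      {t : ℝ | ∃ E ∈ A x, ∃ ψ, IsEig (Function.update (fun n => W n + ε * x n) m t) a b E ψ ∧
        κ ≤ ψ m ^ 2}} := by
    intro s hs
    obtain ⟨E, hE, ψ, h1, h2⟩ := hh _ hs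
    rw [hA] at hE
    refine ⟨E, hE, ψ, ?_, h2⟩
    have e : (fun n => W n + ε * Function.update x m s n) =
        Function.update (fun n => W n + ε * x n) m (W m + ε * s) := by
      funext n
      by_cases hn : n = m
      · subst hn; simp
      · rw [Function.update_of_ne hn, Function.update_of_ne hn]
    rw [e] at h1
    exact h1
  refine (measure_mono h1).trans ((U_scale ε (W m) hε _).trans ?_)
  refine (mul_le_mul_right (taskSA _ a b m (A x) κ hκ) _).trans ?_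
  rw [← mul_assoc, ← ENNReal.ofReal_mul (by positivity)]
  refine le_of_eq ?_
  congr 2
  field_simp

end Pool.Agent.TH796.PP
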